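import Pool.Agent.helper70.KU.Defs

/-! Module DB of MP_c048c3_co: basic facts on the functional `D`. -/

namespace C048

open Finset

theorem D_add (n : ℕ) (F G : ℕ → ℝ) : D n (fun i => F i + G i) = D n F + D n G := by
  unfold D; simp only [sum_add_distrib]; ring

theorem D_sub (n : ℕ) (F G : ℕ → ℝ) : D n (fun i => F i - G i) = D n F - D n G := by
  unfold D; simp only [sum_sub_distrib]; ring

theorem D_mul (n : ℕ) (c : ℝ) (F : ℕ → ℝ) : D n (fun i => c * F i) = c * D n F := by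
  unfold D; simp only [← mul_sum]; ring

theorem D_congr {n : ℕ} {F G : ℕ → ℝ} (h : ∀ i, 1 ≤ i → i ≤ 6 * n → F i = G i) :
    D n F = D n G := by
  unfold D
  rw [sum_congr rfl (fun i hi => h i (by simp at hi; omega) (by simp at hi; omega)),
    sum_congr rfl (fun i (hi : i ∈ Ioc n (2 * n)) => h i (by simp at hi; omega) (by simp at hi; omega)),
    sum_congr rfl (fun i (hi : i ∈ Ioc (3 * n) (6 * n)) =>
      h i (by simp at hi; omega) (by simp at hi; omega))]

theorem D_const (n : ℕ) (c : ℝ) : D n (fun _ => c) = 0 := by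
  unfold D
  simp only [sum_const, Nat.card_Icc, Nat.card_Ioc, nsmul_eq_mul]
  have h1 : n + 1 - 1 = n := by omega
  have h2 : 2 * n - n = n := by omega
  have h3 : 6 * n - 3 * n = 3 * n := by omega
  rw [h1, h2, h3]; push_cast; ring

/-- the three blocks `(3n, 6n]` as `3b-2, 3b-1, 3b`, `b ∈ (n, 2n]` -/
theorem sum_three (n : ℕ) (F : ℕ → ℝ) : ∀ k, ∑ i ∈ Ioc (3 * n) (3 * n + 3 * k), F i
    = ∑ b ∈ Ioc n (n + k), (F (3 * b - 2) + F (3 * b - 1) + F (3 * b)) := by
  intro k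
  induction k with
  | zero => simp
  | succ k ih =>
    have e1 : 3 * n + 3 * (k + 1) = 3 * n + 3 * k + 1 + 1 + 1 := by ring
    rw [e1, ← Finset.insert_Ioc_right_eq_Ioc_add_one (by omega), sum_insert (by simp),
      ← Finset.insert_Ioc_right_eq_Ioc_add_one (by omega), sum_insert (by simp),
      ← Finset.insert_Ioc_right_eq_Ioc_add_one (by omega), sum_insert (by simp), ih,
      ← Nat.add_assoc, ← Finset.insert_Ioc_right_eq_Ioc_add_one (by omega), sum_insert (by simp)]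
    have f1 : 3 * (n + k + 1) - 2 = 3 * n + 3 * k + 1 := by omega
    have f2 : 3 * (n + k + 1) - 1 = 3 * n + 3 * k + 1 + 1 := by omega
    have f3 : 3 * (n + k + 1) = 3 * n + 3 * k + 1 + 1 + 1 := by omega
    rw [f1, f2, f3]; ring

theorem sum_shift (n : ℕ) (F : ℕ → ℝ) : ∑ i ∈ Icc 1 n, F i = ∑ b ∈ Ioc n (2 * n), F (b - n) := by
  apply sum_bij' (fun i _ => i + n) (fun b _ => b - n)
  · intro i hi; simp at hi ⊢; omega
  · intro b hb; simp at hb ⊢; omega
  · intro i hi; simp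
  · intro b hb; simp at hb ⊢; omega
  · intro i hi; simp

theorem D_nonneg {n : ℕ} {F : ℕ → ℝ} (h : ∀ i j, 1 ≤ i → i ≤ j → j ≤ 6 * n → F j ≤ F i) :
    0 ≤ D n F := by
  unfold D
  have h3 := sum_three n F n
  rw [show 3 * n + 3 * n = 6 * n by ring, show n + n = 2 * n by ring] at h3
  rw [h3, sum_shift n F, mul_sum, ← sum_add_distrib, ← sum_sub_distrib]
  apply sum_nonneg
  intro b hb
  simp at hb
  have a1 := h (b - n) (3 * b - 2) (by omega) (by omega) (by omega)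
  have a2 := h b (3 * b - 1) (by omega) (by omega) (by omega)
  have a3 := h b (3 * b) (by omega) (by omega) (by omega)
  linarith

/-- comparison form -/
theorem D_le_D {n : ℕ} {F G : ℕ → ℝ}
    (h : ∀ i j, 1 ≤ i → i ≤ j → j ≤ 6 * n → G j - F j ≤ G i - F i) : D n F ≤ D n G := by
  have := D_nonneg (n := n) (F := fun i => G i - F i) h
  rw [D_sub] at this
  linarith

theorem sum_evenodd (n : ℕ) (F : ℕ → ℝ) : ∀ k, ∑ i ∈ Ioc (2 * n) (2 * n + 2 * k), F i
    = ∑ b ∈ Ioc n (n + k), F (2 * b) + ∑ i ∈ Icc 1 k, F (2 * n + 2 * i - 1) := by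
  intro k
  induction k with
  | zero => simp
  | succ k ih =>
    have e1 : 2 * n + 2 * (k + 1) = 2 * n + 2 * k + 1 + 1 := by ring
    rw [e1, ← Finset.insert_Ioc_right_eq_Ioc_add_one (by omega), sum_insert (by simp),
      ← Finset.insert_Ioc_right_eq_Ioc_add_one (by omega), sum_insert (by simp), ih,
      ← Nat.add_assoc, ← Finset.insert_Ioc_right_eq_Ioc_add_one (by omega), sum_insert (by simp),
      sum_Icc_succ_top (by omega)]
    have f1 : 2 * (n + k + 1) = 2 * n + 2 * k + 1 + 1 := by omega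
    have f2 : 2 * n + 2 * (k + 1) - 1 = 2 * n + 2 * k + 1 := by omega
    rw [f1, f2]; ring

theorem sum_Ioc_split {m k l : ℕ} (h1 : m ≤ k) (h2 : k ≤ l) (F : ℕ → ℝ) :
    ∑ i ∈ Ioc m l, F i = ∑ i ∈ Ioc m k, F i + ∑ i ∈ Ioc k l, F i := by
  rw [← sum_union]
  · congr 1; ext i; simp; omega
  · rw [disjoint_left]; intro i hi; simp at hi ⊢; omega

theorem sum_Icc_split {k l : ℕ} (h2 : k ≤ l) (F : ℕ → ℝ) :
    ∑ i ∈ Icc 1 l, F i = ∑ i ∈ Icc 1 k, F i + ∑ i ∈ Ioc k l, F i := by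
  have h0 : ∀ m, Icc 1 m = Ioc 0 m := by intro m; ext i; simp; omega
  rw [h0, h0]
  exact sum_Ioc_split (Nat.zero_le _) h2 F

theorem D_split (n : ℕ) (F : ℕ → ℝ) :
    D n F = ∑ b ∈ Ioc n (3 * n), (F b - F (2 * b))
      + ∑ i ∈ Icc 1 (2 * n), (F i - F (2 * n + 2 * i - 1)) := by
  have h := sum_evenodd n F (2 * n)
  rw [show 2 * n + 2 * (2 * n) = 6 * n by ring, show n + 2 * n = 3 * n by ring] at h
  rw [sum_sub_distrib, sum_sub_distrib]
  have h1 := sum_Ioc_split (show 2 * n ≤ 3 * n by omega) (show 3 * n ≤ 6 * n by omega) F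
  have h2 := sum_Ioc_split (show n ≤ 2 * n by omega) (show 2 * n ≤ 3 * n by omega) F
  have h3 := sum_Icc_split (show n ≤ 2 * n by omega) F
  unfold D
  linarith

theorem sum_sq_Icc (N : ℕ) : ∑ i ∈ Icc 1 N, (i : ℝ) ^ 2 = N * (N + 1) * (2 * N + 1) / 6 := by
  induction N with
  | zero => simp
  | succ N ih => rw [sum_Icc_succ_top (by omega), ih]; push_cast; ring

theorem sum_four_Icc (N : ℕ) : ∑ i ∈ Icc 1 N, (i : ℝ) ^ 4
    = N ^ 5 / 5 + N ^ 4 / 2 + N ^ 3 / 3 - N / 30 := by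
  induction N with
  | zero => simp
  | succ N ih => rw [sum_Icc_succ_top (by omega), ih]; push_cast; ring

theorem D_eq_Icc (n : ℕ) (F : ℕ → ℝ) :
    D n F = 2 * ∑ i ∈ Icc 1 (2 * n), F i - ∑ i ∈ Icc 1 n, F i
      - ∑ i ∈ Icc 1 (6 * n), F i + ∑ i ∈ Icc 1 (3 * n), F i := by
  have h1 := sum_Icc_split (show n ≤ 2 * n by omega) F
  have h2 := sum_Icc_split (show 3 * n ≤ 6 * n by omega) F
  unfold D
  linarith

theorem D_sq (n : ℕ) : D n (fun i => (i : ℝ) ^ 2) = - S2 n := by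
  rw [D_eq_Icc, sum_sq_Icc, sum_sq_Icc, sum_sq_Icc, sum_sq_Icc, S2]
  push_cast; ring

theorem D_four (n : ℕ) : D n (fun i => (i : ℝ) ^ 4) = - S4 n := by
  rw [D_eq_Icc, sum_four_Icc, sum_four_Icc, sum_four_Icc, sum_four_Icc, S4]
  push_cast; ring

end C048
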