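import Pool.Agent.helper18.KU.Spec

set_option autoImplicit false

namespace Pool.Agent.KU

open Finset

noncomputable section

theorem DIS : DIS_stmt := by
  intro s α i k n h1 h2 t ⟨h3, h4⟩
  rw [ZMod.intCast_eq_intCast_iff_dvd_sub] at h3 h4
  obtain ⟨x, hx⟩ := h3
  obtain ⟨y, hy⟩ := h4
  have a1 := Int.floor_le (t - s)
  have a2 := Int.lt_floor_add_one (t - s)
  have b1 := Int.floor_le (t - α)
  have b2 := Int.lt_floor_add_one (t - α)
  have hx' : (⌊t - s⌋ : ℝ) = i - 3 * x := by
    have : ⌊t - s⌋ = i - 3 * x := by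
      push_cast at hx
      omega
    rw [this]
    push_cast
    ring
  have hy' : (⌊t - α⌋ : ℝ) = k - 3 * y := by
    have : ⌊t - α⌋ = k - 3 * y := by
      push_cast at hy
      omega
    rw [this]
    push_cast
    ring
  rw [hx'] at a1 a2
  rw [hy'] at b1 b2
  rcases le_or_gt 0 (y - x - n) with hz | hz
  · have hz' : (0 : ℝ) ≤ (y : ℝ) - x - n := by exact_mod_cast hz
    linarith
  · have hz0 : y - x - n ≤ -1 := by omega
    have hz' : (y : ℝ) - x - n ≤ -1 := by exact_mod_cast hz0
    linarith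

end

end Pool.Agent.KU
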