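import Pool.Agent.helper70.KU.Defs

/-! Module ALG of MP_c048c3_co: polynomial facts about `P_n`. -/

namespace C048

open Finset Polynomial

/-- the map `ℕ[X] → ℤ[X]` -/
noncomputable abbrev toZ (p : ℕ[X]) : ℤ[X] := p.map (Nat.castRingHom ℤ)

theorem qfac_succ (m : ℕ) : qfac (m + 1) = qfac m * (1 - X ^ (m + 1)) := by
  simp only [qfac, prod_range_succ]

theorem qfac_zero : qfac 0 = 1 := by simp [qfac]

theorem gb_eq_zero (n k : ℕ) (h : n < k) : gb n k = 0 := by
  induction n generalizing k with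
  | zero =>
    cases k with
    | zero => omega
    | succ k => simp [gb]
  | succ n ih =>
    cases k with
    | zero => omega
    | succ k => simp [gb, ih k (by omega), ih (k + 1) (by omega)]

theorem gb_zero_right (n : ℕ) : gb n 0 = 1 := by
  cases n <;> simp [gb]

theorem gb_identity (n k : ℕ) : toZ (gb (n + k) k) * (qfac k * qfac n) = qfac (n + k) := by
  induction n generalizing k with
  | zero =>
    induction k with
    | zero => simp [gb_zero_right, qfac_zero]
    | succ k ih =>
      have h0 : gb (0 + (k + 1)) (k + 1) = gb (0 + k) k := by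
        have : gb (k + 1) (k + 1) = gb k k + X ^ (k + 1) * gb k (k + 1) := by rw [gb]
        rw [gb_eq_zero k (k + 1) (by omega)] at this
        simpa using this
      rw [h0, qfac_succ, qfac_zero]
      rw [qfac_zero] at ih
      have : qfac (0 + (k + 1)) = qfac (0 + k) * (1 - X ^ (k + 1)) := by
        rw [Nat.zero_add, Nat.zero_add, qfac_succ]
      rw [this, ← ih]; ring
  | succ n ihn =>
    induction k with
    | zero => simp [gb_zero_right, qfac_zero]
    | succ k ihk =>
      have h0 : gb (n + 1 + (k + 1)) (k + 1) = gb (n + 1 + k) k + X ^ (k + 1) * gb (n + (k + 1)) (k + 1) := by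
        have e : n + 1 + (k + 1) = (n + 1 + k) + 1 := by ring
        rw [e, gb]
        have e2 : n + 1 + k = n + (k + 1) := by ring
        rw [e2]
      have h1 := ihk
      have h2 := ihn (k + 1)
      have e3 : n + 1 + (k + 1) = (n + 1 + k) + 1 := by ring
      have e4 : n + (k + 1) = n + 1 + k := by ring
      rw [h0, e3, qfac_succ (n + 1 + k)]
      rw [e4] at h2 ⊢
      simp only [toZ, Polynomial.map_add, Polynomial.map_mul, Polynomial.map_pow, Polynomial.map_X] at *
      rw [qfac_succ k] at h2 ⊢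
      rw [qfac_succ n] at h1 ⊢
      have e5 : (X : ℤ[X]) ^ (n + 1 + k + 1) = X ^ (n + 1) * X ^ (k + 1) := by
        rw [← pow_add]; rfl
      rw [e5]
      linear_combination (1 - X ^ (k + 1)) * h1 + X ^ (k + 1) * (1 - X ^ (n + 1)) * h2

theorem BB_zero_right (k : ℕ) : BB k 0 = 1 := by
  rw [BB]

theorem BB_identity (k j : ℕ) :
    toZ (BB k j) * (qfac (k + j) * qfac (2 * k) * qfac j) = qfac (2 * (k + j)) * qfac k := by
  induction k generalizing j with
  | zero =>
    cases j with
    | zero => simp [BB_zero_right, qfac_zero]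
    | succ j =>
      rw [BB]
      have h := gb_identity (j + 1) (j + 1)
      have e : 2 * (j + 1) = (j + 1) + (j + 1) := by ring
      rw [e]
      simp only [Nat.zero_add, Nat.mul_zero, qfac_zero, mul_one]
      rw [e]
      exact h
  | succ k ihk =>
    induction j with
    | zero =>
      simp [BB_zero_right, qfac_zero, mul_comm]
    | succ j ihj =>
      have h1 := ihj
      have h2 := ihk (j + 1)
      rw [BB]
      simp only [toZ, Polynomial.map_add, Polynomial.map_mul, Polynomial.map_pow, Polynomial.map_X,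
        Polynomial.map_one] at *
      have e1 : k + 1 + (j + 1) = (k + 1 + j) + 1 := by ring
      have e2 : k + (j + 1) = k + 1 + j := by ring
      have e3 : 2 * ((k + 1 + j) + 1) = 2 * (k + 1 + j) + 1 + 1 := by ring
      have e4 : 2 * (k + 1) = 2 * k + 1 + 1 := by ring
      rw [e1, e3, qfac_succ (k + 1 + j), qfac_succ (2 * (k + 1 + j) + 1), qfac_succ (2 * (k + 1 + j)),
        qfac_succ j]
      rw [e2] at h2
      rw [e4] at h1 ⊢
      rw [qfac_succ (2 * k + 1), qfac_succ (2 * k), qfac_succ k] at h1 ⊢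
      rw [qfac_succ j] at h2
      have f1 : (X : ℤ[X]) ^ (2 * (k + 1 + j) + 1 + 1) = X ^ (2 * k) * X ^ (2 * j) * X ^ 4 := by
        rw [← pow_add, ← pow_add]; congr 1; ring
      have f2 : (X : ℤ[X]) ^ (2 * (k + 1 + j) + 1) = X ^ (2 * k) * X ^ (2 * j) * X ^ 3 := by
        rw [← pow_add, ← pow_add]; congr 1; ring
      have f3 : (X : ℤ[X]) ^ (k + 1 + j + 1) = X ^ k * X ^ j * X ^ 2 := by
        rw [← pow_add, ← pow_add]; congr 1; ring
      linear_combination (X ^ (j + 1) * (1 - X ^ (k + 1 + j + 1)) * (1 - X ^ (2 * k + 1))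
          * (1 - X ^ (2 * k + 1 + 1))) * h2
        + ((1 + X ^ (2 * k + j + 2) + X ^ (3 * k + j + 3) + X ^ (3 * k + 2 * j + 4))
          * (1 - X ^ (k + 1 + j + 1)) * (1 - X ^ (j + 1))) * h1

/-- ALG1 -/
theorem PN_identity (n : ℕ) :
    (PN n).map (Nat.castRingHom ℤ) * (qfac (3 * n) * qfac (2 * n) ^ 2) = qfac (6 * n) * qfac n := by
  have h := BB_identity n (2 * n)
  have e1 : n + 2 * n = 3 * n := by ring
  have e2 : 2 * (3 * n) = 6 * n := by ring
  rw [e1, e2] at h
  simp only [toZ] at h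
  rw [PN, ← h]; ring

/-! #### values at 1 -/

theorem gb_eval_one (n k : ℕ) : (gb n k).eval 1 = n.choose k := by
  induction n generalizing k with
  | zero => cases k <;> simp [gb]
  | succ n ih =>
    cases k with
    | zero => simp [gb]
    | succ k => simp [gb, ih, Nat.choose_succ_succ]

theorem BB_eval_one (k j : ℕ) : (BB k j).eval 1 ≤ 3 ^ k * 6 ^ j := by
  induction k generalizing j with
  | zero =>
    cases j with
    | zero => simp [BB_zero_right]
    | succ j =>
      rw [BB, gb_eval_one]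
      have h : (2 * (j + 1)).choose (j + 1) ≤ 4 ^ (j + 1) := by
        calc (2 * (j + 1)).choose (j + 1) ≤ 2 ^ (2 * (j + 1)) := Nat.choose_le_two_pow _ _
          _ = 4 ^ (j + 1) := by rw [pow_mul]; norm_num
      calc _ ≤ 4 ^ (j + 1) := h
        _ ≤ 6 ^ (j + 1) := Nat.pow_le_pow_left (by norm_num) _
        _ = 3 ^ 0 * 6 ^ (j + 1) := by ring
  | succ k ihk =>
    induction j with
    | zero => simp [BB_zero_right]; exact Nat.one_le_pow _ _ (by norm_num)
    | succ j ihj =>
      rw [BB]
      simp only [eval_add, eval_mul, eval_pow, eval_X, eval_one, one_pow, one_mul]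
      have h2 := ihk (j + 1)
      calc (1 + 1 + 1 + 1) * (BB (k + 1) j).eval 1 + (BB k (j + 1)).eval 1
          ≤ 4 * (3 ^ (k + 1) * 6 ^ j) + 3 ^ k * 6 ^ (j + 1) := by
            have : (1 + 1 + 1 + 1 : ℕ) = 4 := by norm_num
            rw [this]; gcongr
        _ = 3 ^ (k + 1) * 6 ^ (j + 1) := by ring

theorem PN_eval_one (n : ℕ) : (PN n).eval 1 ≤ 108 ^ n := by
  have h := BB_eval_one n (2 * n)
  have : 3 ^ n * 6 ^ (2 * n) = 108 ^ n := by
    rw [pow_mul, ← mul_pow]; norm_num
  rw [this] at h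
  exact h

/-- ALG2 -/
theorem a_le (n k : ℕ) : a n k ≤ 108 ^ n := by
  refine le_trans ?_ (PN_eval_one n)
  unfold a
  rw [eval_eq_sum_range]
  simp only [one_pow, mul_one]
  by_cases hk : k ≤ (PN n).natDegree
  · exact single_le_sum (f := fun i => (PN n).coeff i) (fun i _ => Nat.zero_le _)
      (mem_range.mpr (by omega))
  · rw [coeff_eq_zero_of_natDegree_lt (by omega)]; exact Nat.zero_le _

theorem qfac_coeff_zero (m : ℕ) : (qfac m).coeff 0 = 1 := by
  induction m with
  | zero => simp [qfac_zero]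
  | succ m ih => rw [qfac_succ, mul_coeff_zero, ih]; simp

theorem one_sub_X_pow_ne_zero (m : ℕ) : (1 - X ^ (m + 1) : ℤ[X]) ≠ 0 := by
  intro h
  have := congrArg (fun p : ℤ[X] => p.coeff 0) h
  simp at this

theorem qfac_ne_zero (m : ℕ) : qfac m ≠ 0 := by
  intro h
  have := qfac_coeff_zero m
  rw [h] at this
  simp at this

/-- ALG3 -/
theorem a_zero (n : ℕ) : a n 0 = 1 := by
  have h := congrArg (fun p : ℤ[X] => p.coeff 0) (PN_identity n)
  simp only [mul_coeff_zero, pow_two, qfac_coeff_zero, mul_one, coeff_map] at h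
  have : ((a n 0 : ℕ) : ℤ) = 1 := by simpa [a] using h
  exact_mod_cast this

theorem natDegree_one_sub (m : ℕ) : (1 - X ^ (m + 1) : ℤ[X]).natDegree = m + 1 := by
  have h : (1 - X ^ (m + 1) : ℤ[X]) = -(X ^ (m + 1) - C 1) := by simp
  rw [h, natDegree_neg, natDegree_X_pow_sub_C]

theorem natDegree_qfac (m : ℕ) : 2 * (qfac m).natDegree = m * (m + 1) := by
  induction m with
  | zero => simp [qfac_zero]
  | succ m ih =>
    rw [qfac_succ, natDegree_mul (qfac_ne_zero m) (one_sub_X_pow_ne_zero m), natDegree_one_sub]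
    ring_nf
    ring_nf at ih
    omega

theorem toZ_ne_zero (n : ℕ) : toZ (PN n) ≠ 0 := by
  intro h
  have h2 := PN_identity n
  simp only [toZ] at h
  rw [h, zero_mul] at h2
  exact mul_ne_zero (qfac_ne_zero _) (qfac_ne_zero _) h2.symm

theorem natDegree_PN (n : ℕ) : (PN n).natDegree = 10 * n ^ 2 := by
  have h := congrArg Polynomial.natDegree (PN_identity n)
  have hz := toZ_ne_zero n
  simp only [toZ] at hz
  rw [natDegree_mul hz (mul_ne_zero (qfac_ne_zero _) (pow_ne_zero _ (qfac_ne_zero _))),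
    natDegree_mul (qfac_ne_zero _) (pow_ne_zero _ (qfac_ne_zero _)),
    natDegree_mul (qfac_ne_zero _) (qfac_ne_zero _), natDegree_pow] at h
  have hm : ((PN n).map (Nat.castRingHom ℤ)).natDegree = (PN n).natDegree :=
    natDegree_map_eq_of_injective (Nat.cast_injective (R := ℤ)) _
  rw [hm] at h
  have h3 := natDegree_qfac (3 * n)
  have h2 := natDegree_qfac (2 * n)
  have h6 := natDegree_qfac (6 * n)
  have h1 := natDegree_qfac n
  nlinarith

theorem a_eq_zero (n k : ℕ) (hk : 10 * n ^ 2 < k) : a n k = 0 := by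
  unfold a
  exact coeff_eq_zero_of_natDegree_lt (by rw [natDegree_PN]; exact hk)

/-! #### reciprocity -/

theorem reverse_one_sub (m : ℕ) : (1 - X ^ (m + 1) : ℤ[X]).reverse = -(1 - X ^ (m + 1)) := by
  ext k
  rw [coeff_reverse, natDegree_one_sub]
  by_cases hk : k ≤ m + 1
  · rw [revAt_le hk]
    simp only [coeff_sub, coeff_neg, coeff_one, coeff_X_pow]
    rcases Nat.lt_or_ge k (m + 1) with h | h
    · rcases Nat.eq_zero_or_pos k with h0 | h0
      · subst h0; simp
      · have e1 : ¬ (m + 1 - k = 0) := by omega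
        have e2 : ¬ (m + 1 - k = m + 1) := by omega
        have e3 : ¬ (k = 0) := by omega
        have e4 : ¬ (k = m + 1) := by omega
        simp [e1, e2, e3, e4]
    · have : k = m + 1 := by omega
      subst this; simp
  · rw [revAt_eq_self_of_lt (by omega)]
    simp only [coeff_sub, coeff_neg, coeff_one, coeff_X_pow]
    have e3 : ¬ (k = 0) := by omega
    have e4 : ¬ (k = m + 1) := by omega
    simp [e3, e4]

theorem reverse_qfac (m : ℕ) : (qfac m).reverse = (-1) ^ m * qfac m := by
  induction m with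
  | zero => simp [qfac_zero, reverse, reflect_one]
  | succ m ih =>
    rw [qfac_succ, reverse_mul_of_domain, ih, reverse_one_sub]
    ring

theorem reverse_pow_two (p : ℤ[X]) : (p ^ 2).reverse = p.reverse ^ 2 := by
  rw [pow_two, reverse_mul_of_domain, pow_two]

theorem reverse_PN (n : ℕ) : (toZ (PN n)).reverse = toZ (PN n) := by
  have h := congrArg Polynomial.reverse (PN_identity n)
  rw [reverse_mul_of_domain, reverse_mul_of_domain, reverse_mul_of_domain, reverse_pow_two,
    reverse_qfac, reverse_qfac, reverse_qfac, reverse_qfac] at h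
  have hA : (qfac (3 * n) * qfac (2 * n) ^ 2) ≠ 0 :=
    mul_ne_zero (qfac_ne_zero _) (pow_ne_zero _ (qfac_ne_zero _))
  apply mul_right_cancel₀ hA
  have h2 := PN_identity n
  simp only [toZ]
  rw [h2]
  have s1 : ((-1 : ℤ[X]) ^ (2 * n)) = 1 := by rw [pow_mul]; simp
  have s2 : ((-1 : ℤ[X]) ^ (6 * n)) = 1 := by
    rw [show 6 * n = 2 * (3 * n) by ring, pow_mul]; simp
  have s3 : ((-1 : ℤ[X]) ^ (3 * n)) = (-1) ^ n := by
    rw [show 3 * n = 2 * n + n by ring, pow_add, s1, one_mul]
  rw [s1, s2, s3] at h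
  have s4 : ((-1 : ℤ[X]) ^ n) * (-1) ^ n = 1 := by rw [← mul_pow]; simp
  calc _ = ((-1) ^ n * (-1) ^ n) * (((PN n).map (Nat.castRingHom ℤ)).reverse
            * (qfac (3 * n) * qfac (2 * n) ^ 2)) := by rw [s4, one_mul]
    _ = (-1) ^ n * (((PN n).map (Nat.castRingHom ℤ)).reverse
            * ((-1) ^ n * qfac (3 * n) * (1 * qfac (2 * n)) ^ 2)) := by ring
    _ = (-1) ^ n * (1 * qfac (6 * n) * ((-1) ^ n * qfac n)) := by rw [h]
    _ = ((-1) ^ n * (-1) ^ n) * (qfac (6 * n) * qfac n) := by ring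
    _ = qfac (6 * n) * qfac n := by rw [s4, one_mul]

theorem a_symm (n k : ℕ) (hk : k ≤ 10 * n ^ 2) : a n (10 * n ^ 2 - k) = a n k := by
  have h := congrArg (fun p : ℤ[X] => p.coeff k) (reverse_PN n)
  simp only [coeff_reverse, toZ] at h
  rw [natDegree_map_eq_of_injective (Nat.cast_injective (R := ℤ)), natDegree_PN, revAt_le hk,
    coeff_map, coeff_map] at h
  have : ((a n (10 * n ^ 2 - k) : ℕ) : ℤ) = (a n k : ℕ) := by simpa [a] using h
  exact_mod_cast this

/-! #### reduced identity -/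

theorem qfac_eq_prod (m : ℕ) : qfac m = ∏ i ∈ Icc 1 m, (1 - X ^ i : ℤ[X]) := by
  induction m with
  | zero => simp [qfac_zero]
  | succ m ih => rw [qfac_succ, ih, prod_Icc_succ_top (by omega)]

theorem qfac_split {m M : ℕ} (h : m ≤ M) :
    qfac M = qfac m * ∏ i ∈ Ioc m M, (1 - X ^ i : ℤ[X]) := by
  induction M with
  | zero =>
    have : m = 0 := by omega
    subst this; simp
  | succ M ih =>
    rcases Nat.lt_or_ge M m with h1 | h1
    · have : m = M + 1 := by omega
      subst this; simp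
    · rw [qfac_succ, ih h1, ← Finset.insert_Ioc_right_eq_Ioc_add_one h1, prod_insert (by simp)]
      ring

theorem reduced_identity (n : ℕ) :
    toZ (PN n) * ((∏ i ∈ Icc 1 n, (1 - X ^ i)) * (∏ i ∈ Ioc n (2 * n), (1 - X ^ i)) ^ 2)
      = ∏ i ∈ Ioc (3 * n) (6 * n), (1 - X ^ i : ℤ[X]) := by
  have h := PN_identity n
  rw [qfac_split (show 3 * n ≤ 6 * n by omega), qfac_split (show n ≤ 2 * n by omega)] at h
  have hA : (qfac (3 * n) * qfac n) ≠ 0 := mul_ne_zero (qfac_ne_zero _) (qfac_ne_zero _)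
  apply mul_left_cancel₀ hA
  rw [← qfac_eq_prod]
  simp only [toZ]
  linear_combination h

/-- ALG4 -/
theorem Pz_identity (n : ℕ) (z : ℂ) :
    Pz n z * ((∏ i ∈ Icc 1 n, (1 - z ^ i)) * (∏ i ∈ Ioc n (2 * n), (1 - z ^ i)) ^ 2)
      = ∏ i ∈ Ioc (3 * n) (6 * n), (1 - z ^ i) := by
  have h := congrArg (fun p : ℤ[X] => (p.map (Int.castRingHom ℂ)).eval z) (reduced_identity n)
  simp only [toZ, Polynomial.map_mul, Polynomial.map_prod, Polynomial.map_pow, Polynomial.map_sub,
    Polynomial.map_one, Polynomial.map_X, eval_mul, eval_prod, eval_pow, eval_sub, eval_one,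
    eval_X, Polynomial.map_map] at h
  rw [← h]
  congr 1
  rw [eval_eq_sum_range, Pz]
  have hd : ((PN n).map ((Int.castRingHom ℂ).comp (Nat.castRingHom ℤ))).natDegree = 10 * n ^ 2 := by
    rw [natDegree_map_eq_of_injective, natDegree_PN]
    intro x y hxy
    simpa using hxy
  rw [hd]
  apply sum_congr rfl
  intro k _
  rw [coeff_map]
  simp [a]

end C048
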