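import Pool.Agent.helper70.KU.DB
import Pool.Agent.helper77.KU.VU

/-!
# Module VN: numerical lower bounds of `V` at `3/(2n)` and `2/n`
-/

namespace C048

open Real Finset

namespace VN

lemma six_pow (k : ℕ) : 6 ^ k * k.factorial ≤ (2 * k + 1).factorial := by
  induction k with
  | zero => simp
  | succ k ih =>
    have e : (2 * (k + 1) + 1).factorial = (2 * k + 3) * ((2 * k + 2) * (2 * k + 1).factorial) := by
      have : 2 * (k + 1) + 1 = (2 * k + 2) + 1 := by ring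
      rw [this, Nat.factorial_succ, Nat.factorial_succ]
    rw [e, Nat.factorial_succ, pow_succ]
    have h : 6 * (k + 1) ≤ (2 * k + 3) * (2 * k + 2) := by nlinarith
    calc 6 ^ k * 6 * ((k + 1) * k.factorial) = (6 * (k + 1)) * (6 ^ k * k.factorial) := by ring
      _ ≤ ((2 * k + 3) * (2 * k + 2)) * (2 * k + 1).factorial := Nat.mul_le_mul h ih
      _ = _ := by ring

lemma sinh_le {z : ℝ} (hz : 0 ≤ z) : sinh z ≤ z * exp (z ^ 2 / 6) := by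
  have h1 := Real.hasSum_sinh z
  have h2 : HasSum (fun n : ℕ => z * ((z ^ 2 / 6) ^ n / (n.factorial : ℝ))) (z * exp (z ^ 2 / 6)) := by
    apply HasSum.mul_left
    rw [Real.exp_eq_exp_ℝ]
    exact NormedSpace.expSeries_div_hasSum_exp (z ^ 2 / 6)
  refine hasSum_le (fun n => ?_) h1 h2
  rw [div_pow, div_div, ← mul_div_assoc, ← pow_mul, ← pow_succ']
  apply div_le_div_of_nonneg_left (by positivity) (by positivity)
  exact_mod_cast six_pow n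

lemma exp_neg_ge {x : ℝ} (hx : 0 ≤ x) : 1 - x + x ^ 2 / 2 - x ^ 3 / 6 ≤ exp (-x) := by
  have hanti : MonotoneOn (fun y : ℝ => exp (-y) - (1 - y + y ^ 2 / 2 - y ^ 3 / 6)) (Set.Ici 0) := by
    apply monotoneOn_of_deriv_nonneg (convex_Ici 0)
    · fun_prop
    · fun_prop
    · intro y hy
      rw [interior_Ici] at hy
      have hy0 : 0 < y := hy
      have h1 : HasDerivAt (fun y : ℝ => exp (-y) - (1 - y + y ^ 2 / 2 - y ^ 3 / 6))
          (-exp (-y) + (1 - y + y ^ 2 / 2)) y := by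
        have a1 : HasDerivAt (fun y : ℝ => exp (-y)) (-exp (-y)) y := by
          have := ((hasDerivAt_id y).neg).exp
          exact this.congr_deriv (by simp)
        have a2 : HasDerivAt (fun y : ℝ => 1 - y + y ^ 2 / 2 - y ^ 3 / 6)
            (-1 + y - y ^ 2 / 2) y := by
          have b1 := (((hasDerivAt_id y).const_sub 1).add ((hasDerivAt_pow 2 y).div_const 2)).sub
            ((hasDerivAt_pow 3 y).div_const 6)
          refine b1.congr_deriv ?_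
          simp
          ring
        exact (a1.sub a2).congr_deriv (by ring)
      rw [h1.deriv]
      have h3 : exp (-y) ≤ 1 - y + y ^ 2 / 2 := by
        have c1 : 1 + y + y ^ 2 / 2 ≤ exp y := Real.quadratic_le_exp_of_nonneg hy0.le
        have c2 : exp (-y) * exp y = 1 := by rw [← Real.exp_add]; simp
        have c3 : 0 < exp (-y) := exp_pos _
        have c4 : exp (-y) * (1 + y + y ^ 2 / 2) ≤ 1 := by
          have c7 := mul_le_mul_of_nonneg_left c1 c3.le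
          rw [c2] at c7
          exact c7
        have c5 : (1 - y + y ^ 2 / 2) * (1 + y + y ^ 2 / 2) = 1 + y ^ 4 / 4 := by ring
        have c6 : 0 < 1 + y + y ^ 2 / 2 := by positivity
        by_contra hcon
        push Not at hcon
        have := mul_lt_mul_of_pos_right hcon c6
        rw [c5] at this
        have : 0 ≤ y ^ 4 / 4 := by positivity
        linarith
      linarith
  have := hanti (Set.mem_Ici.2 le_rfl) (Set.mem_Ici.2 hx) hx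
  simp at this
  linarith

/-- polynomial minorant of `ka` -/
lemma ka_ge {τ : ℝ} (hτ : 0 < τ) (i : ℕ) (hi : 1 ≤ i) :
    (1 / τ ^ 2) * (1 - τ ^ 2 / 12 * (i : ℝ) ^ 2 + τ ^ 4 / 288 * (i : ℝ) ^ 4
      - τ ^ 6 / 10368 * (i : ℝ) ^ 6) ≤ ka τ i := by
  have hi' : (0 : ℝ) < i := by exact_mod_cast hi
  have hz : 0 < (i : ℝ) * τ / 2 := by positivity
  have h1 := sinh_le hz.le
  have hsh : 0 < sinh (i * τ / 2) := sinh_pos_iff.2 hz
  have h2 : sinh (i * τ / 2) ^ 2 ≤ (i * τ / 2) ^ 2 * exp ((i * τ / 2) ^ 2 / 3) := by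
    have e : exp ((i * τ / 2) ^ 2 / 3) = exp ((i * τ / 2) ^ 2 / 6) ^ 2 := by
      rw [← Real.exp_nat_mul]; congr 1; push_cast; ring
    rw [e, ← mul_pow]
    exact pow_le_pow_left₀ hsh.le h1 2
  have h3 := exp_neg_ge (x := (i * τ / 2) ^ 2 / 3) (by positivity)
  have h4 : exp (-((i * τ / 2) ^ 2 / 3)) * exp ((i * τ / 2) ^ 2 / 3) = 1 := by
    rw [← Real.exp_add]; simp
  have h5 : (1 / τ ^ 2) * exp (-((i * τ / 2) ^ 2 / 3)) ≤ ka τ i := by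
    unfold ka
    rw [le_div_iff₀ (by positivity)]
    have h6 : 0 < exp (-((i * τ / 2) ^ 2 / 3)) := exp_pos _
    calc (1 / τ ^ 2) * exp (-((i * τ / 2) ^ 2 / 3)) * (4 * sinh (i * τ / 2) ^ 2)
        ≤ (1 / τ ^ 2) * exp (-((i * τ / 2) ^ 2 / 3)) *
          (4 * ((i * τ / 2) ^ 2 * exp ((i * τ / 2) ^ 2 / 3))) := by
          apply mul_le_mul_of_nonneg_left _ (by positivity)
          linarith
      _ = (1 / τ ^ 2) * (4 * (i * τ / 2) ^ 2) *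
          (exp (-((i * τ / 2) ^ 2 / 3)) * exp ((i * τ / 2) ^ 2 / 3)) := by ring
      _ = (i : ℝ) ^ 2 := by
          rw [h4]
          field_simp
          ring
  refine le_trans ?_ h5
  apply mul_le_mul_of_nonneg_left _ (by positivity)
  refine le_trans (le_of_eq ?_) h3
  ring

theorem sum_six_Icc (N : ℕ) : ∑ i ∈ Icc 1 N, (i : ℝ) ^ 6
    = N ^ 7 / 7 + N ^ 6 / 2 + N ^ 5 / 2 - N ^ 3 / 6 + N / 42 := by
  induction N with
  | zero => simp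
  | succ N ih => rw [sum_Icc_succ_top (by omega), ih]; push_cast; ring

/-- the minorant -/
noncomputable def mi (τ : ℝ) (i : ℕ) : ℝ :=
  (1 / τ ^ 2) * (1 - τ ^ 2 / 12 * (i : ℝ) ^ 2 + τ ^ 4 / 288 * (i : ℝ) ^ 4
      - τ ^ 6 / 10368 * (i : ℝ) ^ 6)

/-- sum of the minorant over `[1, N]` -/
lemma sum_mi (τ : ℝ) (N : ℕ) :
    ∑ i ∈ Icc 1 N, mi τ i = (1 / τ ^ 2) * (N - τ ^ 2 / 12 * (N * (N + 1) * (2 * N + 1) / 6)
      + τ ^ 4 / 288 * (N ^ 5 / 5 + N ^ 4 / 2 + N ^ 3 / 3 - N / 30)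
      - τ ^ 6 / 10368 * (N ^ 7 / 7 + N ^ 6 / 2 + N ^ 5 / 2 - N ^ 3 / 6 + N / 42)) := by
  unfold mi
  rw [← Finset.mul_sum, Finset.sum_sub_distrib, Finset.sum_add_distrib, Finset.sum_sub_distrib,
    ← Finset.mul_sum, ← Finset.mul_sum, ← Finset.mul_sum, sum_sq_Icc, sum_four_Icc, sum_six_Icc]
  simp

lemma sum_ge1 {τ : ℝ} (hτ : 0 < τ) (n : ℕ) :
    ∑ i ∈ Icc 1 n, mi τ i ≤ ∑ i ∈ Icc 1 n, ka τ i :=
  Finset.sum_le_sum (fun i hi => ka_ge hτ i (Finset.mem_Icc.1 hi).1)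

lemma sum_ge2 {τ : ℝ} (hτ : 0 < τ) (n : ℕ) :
    2 * ∑ i ∈ Icc 1 (2 * n), mi τ i - ∑ i ∈ Icc 1 n, mi τ i ≤
      ∑ i ∈ Icc 1 n, ka τ i + 2 * ∑ i ∈ Ioc n (2 * n), ka τ i := by
  have h1 := sum_ge1 hτ n
  have h2 : ∑ i ∈ Ioc n (2 * n), mi τ i ≤ ∑ i ∈ Ioc n (2 * n), ka τ i :=
    Finset.sum_le_sum (fun i hi => ka_ge hτ i (by have := Finset.mem_Ioc.1 hi; omega))
  have h3 := sum_Icc_split (show n ≤ 2 * n by omega) (mi τ)
  linarith

/-- the negative part -/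
lemma tail_le {τ : ℝ} (hτ : 0 < τ) (n : ℕ) (h : 2 ≤ ((3 * n : ℕ) : ℝ) * τ) (w : ℝ)
    (hw : exp (-(((3 * n : ℕ) : ℝ) * τ)) ≤ w) (hw1 : w < 1) :
    ∑ i ∈ Ioc (3 * n) (6 * n), ka τ i ≤
      w * ((((3 * n : ℕ) : ℝ) * τ) ^ 2 + 2 * (((3 * n : ℕ) : ℝ) * τ) + 2) / τ ^ 3 / (1 - w) ^ 2 := by
  have h1w : 0 < 1 - w := by linarith
  have h1 : ∀ i ∈ Ioc (3 * n) (6 * n), ka τ i ≤ (i : ℝ) ^ 2 * exp (-(i * τ)) / (1 - w) ^ 2 := by
    intro i hi
    have hi' := Finset.mem_Ioc.1 hi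
    rw [VU.ka_eq hτ i (by omega), ← mul_div_assoc]
    apply div_le_div_of_nonneg_left (by positivity) (by positivity)
    apply pow_le_pow_left₀ (by linarith)
    have : exp (-(i * τ)) ≤ exp (-(((3 * n : ℕ) : ℝ) * τ)) := by
      apply Real.exp_le_exp.2
      have : ((3 * n : ℕ) : ℝ) ≤ i := by exact_mod_cast hi'.1.le
      nlinarith
    linarith
  refine le_trans (Finset.sum_le_sum h1) ?_
  rw [← Finset.sum_div]
  apply div_le_div_of_nonneg_right _ (by positivity)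
  have h2 := VU.sum_tail hτ (3 * n) h
  have e : 2 * (3 * n) = 6 * n := by ring
  rw [e] at h2
  refine le_trans h2 ?_
  apply div_le_div_of_nonneg_right _ (by positivity)
  apply mul_le_mul_of_nonneg_right hw
  have : 0 < ((3 * n : ℕ) : ℝ) * τ := by linarith
  positivity

end VN

/-- VN15 -/
theorem V15 (n : ℕ) (hn : 150 ≤ n) : 0.89 * (n : ℝ) ^ 3 ≤ V n (3 / (2 * n)) := by
  have hn' : (150 : ℝ) ≤ n := by exact_mod_cast hn
  have hn0 : (0 : ℝ) < n := by linarith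
  have hτ : (0 : ℝ) < 3 / (2 * n) := by positivity
  have hx : exp (-(9 / 2 : ℝ)) ≤ 0.01111 := by
    have h1 : exp (-(1 / 2 : ℝ)) ≤ 0.60654 := by
      have h2 : exp (-(1 / 2 : ℝ)) ^ 2 ≤ 0.60654 ^ 2 := by
        rw [← Real.exp_nat_mul]
        have e : ((2 : ℕ) : ℝ) * -(1 / 2 : ℝ) = -1 := by norm_num
        rw [e]
        have := VU.exp_neg_one_le
        refine le_trans this (by norm_num)
      exact le_of_sq_le_sq h2 (by norm_num)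
    have h3 := VU.exp_neg_nat 4
    have e : exp (-(9 / 2 : ℝ)) = exp (-((4 : ℕ) : ℝ)) * exp (-(1 / 2 : ℝ)) := by
      rw [← Real.exp_add]; congr 1; push_cast; norm_num
    rw [e]
    calc exp (-((4 : ℕ) : ℝ)) * exp (-(1 / 2 : ℝ)) ≤ 0.36788 ^ 4 * 0.60654 := by
          apply mul_le_mul h3 h1 (exp_pos _).le (by norm_num)
      _ ≤ 0.01111 := by norm_num
  have e3 : ((3 * n : ℕ) : ℝ) * (3 / (2 * n)) = 9 / 2 := by
    push_cast; field_simp; norm_num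
  have ht := VN.tail_le hτ n (by rw [e3]; norm_num) 0.01111 (by rw [e3]; exact hx) (by norm_num)
  rw [e3] at ht
  have s1 := VN.sum_ge2 hτ n
  rw [VN.sum_mi, VN.sum_mi] at s1
  have e0 : 2 * ((1 / (3 / (2 * (n : ℝ))) ^ 2) * ((2 * n : ℕ) - (3 / (2 * (n : ℝ))) ^ 2 / 12 *
        ((2 * n : ℕ) * ((2 * n : ℕ) + 1) * (2 * (2 * n : ℕ) + 1) / 6)
      + (3 / (2 * (n : ℝ))) ^ 4 / 288 * ((2 * n : ℕ) ^ 5 / 5 + (2 * n : ℕ) ^ 4 / 2
        + (2 * n : ℕ) ^ 3 / 3 - (2 * n : ℕ) / 30)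
      - (3 / (2 * (n : ℝ))) ^ 6 / 10368 * ((2 * n : ℕ) ^ 7 / 7 + (2 * n : ℕ) ^ 6 / 2
        + (2 * n : ℕ) ^ 5 / 2 - (2 * n : ℕ) ^ 3 / 6 + (2 * n : ℕ) / 42)))
      - ((1 / (3 / (2 * (n : ℝ))) ^ 2) * (n - (3 / (2 * (n : ℝ))) ^ 2 / 12 *
        (n * (n + 1) * (2 * n + 1) / 6)
      + (3 / (2 * (n : ℝ))) ^ 4 / 288 * (n ^ 5 / 5 + n ^ 4 / 2 + n ^ 3 / 3 - n / 30)
      - (3 / (2 * (n : ℝ))) ^ 6 / 10368 * (n ^ 7 / 7 + n ^ 6 / 2 + n ^ 5 / 2 - n ^ 3 / 6 + n / 42)))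
      = (4 / 3 - 5 / 12 + 12.6 / 128 - 255 / 7 / 2048) * (n : ℝ) ^ 3
        + (- 3.5 / 12 + 15.5 / 128 - 63.5 / 2048) * (n : ℝ) ^ 2
        + (- 0.5 / 12 + 5 / 128 - 31.5 / 2048) * (n : ℝ)
        + (- 0.1 / 128 + 2.5 / 2048) / n - 1 / 14 / 2048 / n ^ 3 := by
    push_cast
    field_simp
    ring
  rw [e0] at s1
  have e4 : 0.01111 * ((9 / 2 : ℝ) ^ 2 + 2 * (9 / 2) + 2) / (3 / (2 * (n : ℝ))) ^ 3
      / (1 - 0.01111) ^ 2 ≤ 0.1052 * (n : ℝ) ^ 3 := by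
    have e5 : 0.01111 * ((9 / 2 : ℝ) ^ 2 + 2 * (9 / 2) + 2) / (3 / (2 * (n : ℝ))) ^ 3
      / (1 - 0.01111) ^ 2 = (0.01111 * ((9 / 2 : ℝ) ^ 2 + 2 * (9 / 2) + 2) * 8 / 27
        / (1 - 0.01111) ^ 2) * (n : ℝ) ^ 3 := by
      field_simp
      ring
    rw [e5]
    apply mul_le_mul_of_nonneg_right _ (by positivity)
    norm_num
  have h1 : 0 ≤ (- 0.1 / 128 + 2.5 / 2048) / (n : ℝ) := by
    apply div_nonneg (by norm_num) hn0.le
  have h2 : 1 / 14 / 2048 / (n : ℝ) ^ 3 ≤ 1 := by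
    rw [div_le_one (by positivity)]
    have : (1 : ℝ) ≤ (n : ℝ) ^ 3 := one_le_pow₀ (by linarith)
    linarith [show (1 / 14 / 2048 : ℝ) ≤ 1 by norm_num]
  have h3 : (n : ℝ) ^ 2 * 150 ≤ (n : ℝ) ^ 3 := by
    rw [pow_succ (n : ℝ) 2]
    exact mul_le_mul_of_nonneg_left hn' (by positivity)
  have h4 : (n : ℝ) * 150 ^ 2 ≤ (n : ℝ) ^ 3 := by
    have : (150 : ℝ) ^ 2 ≤ (n : ℝ) ^ 2 := pow_le_pow_left₀ (by norm_num) hn' 2
    calc (n : ℝ) * 150 ^ 2 ≤ n * (n : ℝ) ^ 2 := mul_le_mul_of_nonneg_left this hn0.le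
      _ = (n : ℝ) ^ 3 := by ring
  have h5 : (150 : ℝ) ^ 3 ≤ (n : ℝ) ^ 3 := pow_le_pow_left₀ (by norm_num) hn' 3
  have hV : V n (3 / (2 * n)) = ∑ i ∈ Icc 1 n, ka (3 / (2 * n)) i
      + 2 * ∑ i ∈ Ioc n (2 * n), ka (3 / (2 * n)) i
      - ∑ i ∈ Ioc (3 * n) (6 * n), ka (3 / (2 * n)) i := rfl
  rw [hV]
  linarith

namespace VN

/-- lower bound of one step -/
lemma step_ge {c : ℝ} (hc : 0 < c) {x : ℝ} (hx0 : 0 < x) (h : 2 ≤ x * c) :
    (exp (-(x * c)) * ((x * c) ^ 2 + 2 * (x * c) + 2)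
      - exp (-((x + 1) * c)) * (((x + 1) * c) ^ 2 + 2 * ((x + 1) * c) + 2)) / c ^ 3
      ≤ x ^ 2 * exp (-(x * c)) := by
  have hG : ∀ y : ℝ, HasDerivAt
      (fun y : ℝ => -(exp (-(y * c)) * ((y * c) ^ 2 + 2 * (y * c) + 2) / c ^ 3))
      (y ^ 2 * exp (-(y * c))) y := by
    intro y
    have h2 : HasDerivAt (fun y : ℝ => -(y * c)) (-c) y :=
      (((hasDerivAt_id y).mul_const c).neg).congr_deriv (by simp)
    have h3 : HasDerivAt (fun y : ℝ => y * c) c y :=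
      ((hasDerivAt_id y).mul_const c).congr_deriv (by simp)
    have h4 := ((h2.exp.mul (((h3.pow 2).add (h3.const_mul 2)).add_const 2)).div_const (c ^ 3)).neg
    refine h4.congr_deriv ?_
    simp
    field_simp
    ring
  have hanti : AntitoneOn (fun y : ℝ => y ^ 2 * exp (-(y * c))) (Set.Ici x) := by
    apply antitoneOn_of_deriv_nonpos (convex_Ici _)
    · fun_prop
    · fun_prop
    · intro y hy
      rw [interior_Ici] at hy
      have h1 : HasDerivAt (fun y : ℝ => y ^ 2 * exp (-(y * c)))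
          (2 * y * exp (-(y * c)) + y ^ 2 * (exp (-(y * c)) * (-c))) y := by
        have h2 : HasDerivAt (fun y : ℝ => -(y * c)) (-c) y :=
          (((hasDerivAt_id y).mul_const c).neg).congr_deriv (by simp)
        exact ((hasDerivAt_pow 2 y).mul h2.exp).congr_deriv (by simp)
      rw [h1.deriv]
      have hx1 : x < y := hy
      have hxt : 2 ≤ y * c := by nlinarith
      have hy0 : 0 ≤ y := by linarith
      have e : 2 * y * exp (-(y * c)) + y ^ 2 * (exp (-(y * c)) * (-c)) =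
          -(y * exp (-(y * c)) * (y * c - 2)) := by ring
      rw [e]
      have : 0 ≤ y * exp (-(y * c)) * (y * c - 2) :=
        mul_nonneg (mul_nonneg hy0 (exp_pos _).le) (by linarith)
      linarith
  obtain ⟨ξ, hξ, hξ2⟩ := exists_hasDerivAt_eq_slope
    (fun y : ℝ => -(exp (-(y * c)) * ((y * c) ^ 2 + 2 * (y * c) + 2) / c ^ 3))
    (fun y : ℝ => y ^ 2 * exp (-(y * c))) (show x < x + 1 by linarith)
    (fun y _ => (hG y).continuousAt.continuousWithinAt) (fun y _ => hG y)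
  have h5 := hanti (Set.mem_Ici.2 le_rfl) (Set.mem_Ici.2 hξ.1.le) hξ.1.le
  simp only at h5 hξ2
  rw [hξ2] at h5
  refine le_trans (le_of_eq ?_) h5
  ring

lemma sum_low {c : ℝ} (hc : 0 < c) (n : ℕ) (hn : 0 < n) (h : 2 ≤ (n : ℝ) * c) (m : ℕ) (hm : n ≤ m) :
    (exp (-(n * c)) * ((n * c) ^ 2 + 2 * (n * c) + 2)
      - exp (-((m + 1) * c)) * (((m + 1) * c) ^ 2 + 2 * ((m + 1) * c) + 2)) / c ^ 3
      - (n : ℝ) ^ 2 * exp (-(n * c)) ≤ ∑ i ∈ Ioc n m, (i : ℝ) ^ 2 * exp (-(i * c)) := by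
  have hn0 : (0 : ℝ) < n := by exact_mod_cast hn
  induction m, hm using Nat.le_induction with
  | base =>
    have := step_ge hc hn0 h
    simp
    linarith
  | succ m hm ih =>
    rw [Finset.sum_Ioc_succ_top (by omega)]
    have h1 := step_ge hc (x := ((m + 1 : ℕ) : ℝ)) (by positivity) (by
      have : (n : ℝ) ≤ ((m + 1 : ℕ) : ℝ) := by exact_mod_cast (by omega : n ≤ m + 1)
      nlinarith)
    push_cast at h1 ⊢
    have h2 : ∀ A B C : ℝ, (A - B) / c ^ 3 = (A - C) / c ^ 3 + (C - B) / c ^ 3 := by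
      intro A B C; ring
    rw [h2 _ _ (exp (-(((m : ℝ) + 1) * c)) * ((((m : ℝ) + 1) * c) ^ 2 + 2 * (((m : ℝ) + 1) * c) + 2))]
    linarith

lemma H_anti {u v : ℝ} (hu : 0 ≤ u) (huv : u ≤ v) :
    exp (-v) * (v ^ 2 + 2 * v + 2) ≤ exp (-u) * (u ^ 2 + 2 * u + 2) := by
  have h : exp (-v) = exp (-u) * exp (-(v - u)) := by
    rw [← Real.exp_add]; congr 1; ring
  have h1 : 1 + (v - u) + (v - u) ^ 2 / 2 ≤ exp (v - u) :=
    Real.quadratic_le_exp_of_nonneg (by linarith)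
  have h2 : exp (-(v - u)) * exp (v - u) = 1 := by rw [← Real.exp_add]; simp
  have h3 : v ^ 2 + 2 * v + 2 ≤ (u ^ 2 + 2 * u + 2) * exp (v - u) := by
    have h4 : v ^ 2 + 2 * v + 2 ≤ (u ^ 2 + 2 * u + 2) * (1 + (v - u) + (v - u) ^ 2 / 2) := by
      have hd : 0 ≤ v - u := by linarith
      have : (u ^ 2 + 2 * u + 2) * (1 + (v - u) + (v - u) ^ 2 / 2) - (v ^ 2 + 2 * v + 2)
          = (v - u) * u ^ 2 + (v - u) ^ 2 * (u ^ 2 + 2 * u) / 2 := by ring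
      have h5 : 0 ≤ (v - u) * u ^ 2 + (v - u) ^ 2 * (u ^ 2 + 2 * u) / 2 := by positivity
      linarith
    refine le_trans h4 (mul_le_mul_of_nonneg_left h1 (by positivity))
  rw [h]
  calc exp (-u) * exp (-(v - u)) * (v ^ 2 + 2 * v + 2)
      ≤ exp (-u) * exp (-(v - u)) * ((u ^ 2 + 2 * u + 2) * exp (v - u)) :=
        mul_le_mul_of_nonneg_left h3 (by positivity)
    _ = exp (-u) * (u ^ 2 + 2 * u + 2) * (exp (-(v - u)) * exp (v - u)) := by ring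
    _ = _ := by rw [h2, mul_one]

/-- `ka τ i ≥ i² (e^{-iτ} + 2 e^{-2iτ})` -/
lemma ka_ge2 {τ : ℝ} (hτ : 0 < τ) (i : ℕ) (hi : 1 ≤ i) :
    (i : ℝ) ^ 2 * exp (-(i * τ)) + 2 * ((i : ℝ) ^ 2 * exp (-(i * (2 * τ)))) ≤ ka τ i := by
  rw [VU.ka_eq hτ i hi]
  have hi' : (0 : ℝ) < i := by exact_mod_cast hi
  have hx0 : 0 < exp (-(i * τ)) := exp_pos _
  have hx1 : exp (-(i * τ)) < 1 := by
    rw [Real.exp_lt_one_iff]
    have : 0 < (i : ℝ) * τ := by positivity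
    linarith
  have e : exp (-(i * (2 * τ))) = exp (-(i * τ)) ^ 2 := by
    rw [← Real.exp_nat_mul]; congr 1; push_cast; ring
  rw [e]
  generalize exp (-(i * τ)) = x at *
  have h1 : 0 < (1 - x) ^ 2 := by
    have : 0 < 1 - x := by linarith
    positivity
  have h2 : x + 2 * x ^ 2 ≤ x / (1 - x) ^ 2 := by
    rw [le_div_iff₀ h1]
    have : (x + 2 * x ^ 2) * (1 - x) ^ 2 = x - x ^ 3 * (3 - 2 * x) := by ring
    rw [this]
    have : 0 ≤ x ^ 3 * (3 - 2 * x) := mul_nonneg (by positivity) (by linarith)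
    linarith
  calc (i : ℝ) ^ 2 * x + 2 * ((i : ℝ) ^ 2 * x ^ 2) = (i : ℝ) ^ 2 * (x + 2 * x ^ 2) := by ring
    _ ≤ _ := mul_le_mul_of_nonneg_left h2 (by positivity)

end VN

/-- VN2 -/
theorem V2 (n : ℕ) (hn : 150 ≤ n) : 0.45 * (n : ℝ) ^ 3 ≤ V n (2 / n) := by
  have hn' : (150 : ℝ) ≤ n := by exact_mod_cast hn
  have hn0 : (0 : ℝ) < n := by linarith
  have hτ : (0 : ℝ) < 2 / n := by positivity
  have hnn : 0 < n := by omega
  -- the exponentials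
  have x1 : (0.36787944 : ℝ) ≤ exp (-1) := by
    have := Real.exp_neg_one_gt_d9; linarith
  have x2l : (0.36787944 : ℝ) ^ 2 ≤ exp (-2) := by
    have e : exp (-2) = exp (-1) ^ 2 := by
      rw [← Real.exp_nat_mul]; congr 1; norm_num
    rw [e]
    exact pow_le_pow_left₀ (by norm_num) x1 2
  have x2u : exp (-2) ≤ 0.36788 ^ 2 := by
    have := VU.exp_neg_nat 2
    push_cast at this
    exact this
  have x4u : exp (-4) ≤ 0.36788 ^ 4 := by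
    have := VU.exp_neg_nat 4
    push_cast at this
    exact this
  have x6u : exp (-6) ≤ 0.36788 ^ 6 := by
    have := VU.exp_neg_nat 6
    push_cast at this
    exact this
  have x8u : exp (-8) ≤ 0.36788 ^ 8 := by
    have := VU.exp_neg_nat 8
    push_cast at this
    exact this
  -- the negative part
  have e3 : ((3 * n : ℕ) : ℝ) * (2 / n) = 6 := by
    push_cast; field_simp; norm_num
  have ht := VN.tail_le hτ n (by rw [e3]; norm_num) 0.0024788 (by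
    rw [e3]; refine le_trans x6u (by norm_num)) (by norm_num)
  rw [e3] at ht
  have e4 : 0.0024788 * ((6 : ℝ) ^ 2 + 2 * 6 + 2) / (2 / (n : ℝ)) ^ 3
      / (1 - 0.0024788) ^ 2 ≤ 0.0156 * (n : ℝ) ^ 3 := by
    have e5 : 0.0024788 * ((6 : ℝ) ^ 2 + 2 * 6 + 2) / (2 / (n : ℝ)) ^ 3
      / (1 - 0.0024788) ^ 2 = (0.0024788 * ((6 : ℝ) ^ 2 + 2 * 6 + 2) / 8
        / (1 - 0.0024788) ^ 2) * (n : ℝ) ^ 3 := by
      field_simp
      try ring
    rw [e5]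
    apply mul_le_mul_of_nonneg_right _ (by positivity)
    norm_num
  -- `i ≤ n`
  have s1 := VN.sum_ge1 hτ n
  rw [VN.sum_mi] at s1
  have e0 : (1 / (2 / (n : ℝ)) ^ 2) * (n - (2 / (n : ℝ)) ^ 2 / 12 *
        (n * (n + 1) * (2 * n + 1) / 6)
      + (2 / (n : ℝ)) ^ 4 / 288 * (n ^ 5 / 5 + n ^ 4 / 2 + n ^ 3 / 3 - n / 30)
      - (2 / (n : ℝ)) ^ 6 / 10368 * (n ^ 7 / 7 + n ^ 6 / 2 + n ^ 5 / 2 - n ^ 3 / 6 + n / 42))
      = (1 / 4 - 1 / 36 + 1 / 360 - 1 / 4536) * (n : ℝ) ^ 3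
        + (- 1 / 24 + 1 / 144 - 1 / 1296) * (n : ℝ) ^ 2
        + (- 1 / 72 + 1 / 216 - 1 / 1296) * (n : ℝ)
        + (- 1 / 2160 + 1 / 3888) / n - 1 / 27216 / n ^ 3 := by
    field_simp
    ring
  rw [e0] at s1
  -- `n < i ≤ 2n`
  have s2 : ∑ i ∈ Ioc n (2 * n), (i : ℝ) ^ 2 * exp (-(i * (2 / n)))
      + 2 * ∑ i ∈ Ioc n (2 * n), (i : ℝ) ^ 2 * exp (-(i * (2 * (2 / n))))
      ≤ ∑ i ∈ Ioc n (2 * n), ka (2 / n) i := by
    rw [Finset.mul_sum, ← Finset.sum_add_distrib]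
    exact Finset.sum_le_sum (fun i hi => VN.ka_ge2 hτ i (by have := Finset.mem_Ioc.1 hi; omega))
  have g1 : (n : ℝ) * (2 / n) = 2 := by field_simp
  have g2 : (n : ℝ) * (2 * (2 / n)) = 4 := by field_simp; norm_num
  have t1 := VN.sum_low hτ n hnn (by rw [g1]) (2 * n) (by omega)
  have t2 := VN.sum_low (c := 2 * (2 / n)) (by positivity) n hnn (by rw [g2]; norm_num) (2 * n)
    (by omega)
  rw [g1] at t1
  rw [g2] at t2
  have g3 : (4 : ℝ) ≤ (((2 * n : ℕ) : ℝ) + 1) * (2 / n) := by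
    have : (((2 * n : ℕ) : ℝ) + 1) * (2 / n) = 4 + 2 / n := by push_cast; field_simp; ring
    rw [this]; linarith
  have g4 : (8 : ℝ) ≤ (((2 * n : ℕ) : ℝ) + 1) * (2 * (2 / n)) := by
    have : (((2 * n : ℕ) : ℝ) + 1) * (2 * (2 / n)) = 2 * ((((2 * n : ℕ) : ℝ) + 1) * (2 / n)) := by ring
    rw [this]; linarith
  have a1 := VN.H_anti (by norm_num) g3
  have a2 := VN.H_anti (by norm_num) g4
  have b1 : (exp (-2) * ((2 : ℝ) ^ 2 + 2 * 2 + 2) - exp (-4) * ((4 : ℝ) ^ 2 + 2 * 4 + 2))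
      * (n : ℝ) ^ 3 / 8 - (n : ℝ) ^ 2 * exp (-2)
      ≤ ∑ i ∈ Ioc n (2 * n), (i : ℝ) ^ 2 * exp (-(i * (2 / n))) := by
    refine le_trans ?_ t1
    have e : (exp (-2) * ((2 : ℝ) ^ 2 + 2 * 2 + 2) - exp (-4) * ((4 : ℝ) ^ 2 + 2 * 4 + 2))
      * (n : ℝ) ^ 3 / 8 = (exp (-2) * ((2 : ℝ) ^ 2 + 2 * 2 + 2)
        - exp (-4) * ((4 : ℝ) ^ 2 + 2 * 4 + 2)) / (2 / (n : ℝ)) ^ 3 := by
      field_simp
      try ring
    rw [e]
    apply sub_le_sub_right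
    apply div_le_div_of_nonneg_right _ (by positivity)
    linarith
  have b2 : (exp (-4) * ((4 : ℝ) ^ 2 + 2 * 4 + 2) - exp (-8) * ((8 : ℝ) ^ 2 + 2 * 8 + 2))
      * (n : ℝ) ^ 3 / 64 - (n : ℝ) ^ 2 * exp (-4)
      ≤ ∑ i ∈ Ioc n (2 * n), (i : ℝ) ^ 2 * exp (-(i * (2 * (2 / n)))) := by
    refine le_trans ?_ t2
    have e : (exp (-4) * ((4 : ℝ) ^ 2 + 2 * 4 + 2) - exp (-8) * ((8 : ℝ) ^ 2 + 2 * 8 + 2))
      * (n : ℝ) ^ 3 / 64 = (exp (-4) * ((4 : ℝ) ^ 2 + 2 * 4 + 2)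
        - exp (-8) * ((8 : ℝ) ^ 2 + 2 * 8 + 2)) / (2 * (2 / (n : ℝ))) ^ 3 := by
      field_simp
      try ring
    rw [e]
    apply sub_le_sub_right
    apply div_le_div_of_nonneg_right _ (by positivity)
    linarith
  have hV : V n (2 / n) = ∑ i ∈ Icc 1 n, ka (2 / n) i
      + 2 * ∑ i ∈ Ioc n (2 * n), ka (2 / n) i
      - ∑ i ∈ Ioc (3 * n) (6 * n), ka (2 / n) i := rfl
  rw [hV]
  -- lower order terms
  have h1 : - 1 ≤ (- 1 / 2160 + 1 / 3888) / (n : ℝ) := by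
    rw [le_div_iff₀ hn0]
    have : (- 1 / 2160 + 1 / 3888 : ℝ) ≥ -1 := by norm_num
    linarith
  have h2 : 1 / 27216 / (n : ℝ) ^ 3 ≤ 1 := by
    rw [div_le_one (by positivity)]
    have : (1 : ℝ) ≤ (n : ℝ) ^ 3 := one_le_pow₀ (by linarith)
    linarith [show (1 / 27216 : ℝ) ≤ 1 by norm_num]
  have h3 : (n : ℝ) ^ 2 * 150 ≤ (n : ℝ) ^ 3 := by
    rw [pow_succ (n : ℝ) 2]
    exact mul_le_mul_of_nonneg_left hn' (by positivity)
  have h4 : (n : ℝ) * 150 ^ 2 ≤ (n : ℝ) ^ 3 := by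
    have : (150 : ℝ) ^ 2 ≤ (n : ℝ) ^ 2 := pow_le_pow_left₀ (by norm_num) hn' 2
    calc (n : ℝ) * 150 ^ 2 ≤ n * (n : ℝ) ^ 2 := mul_le_mul_of_nonneg_left this hn0.le
      _ = (n : ℝ) ^ 3 := by ring
  have h5 : (150 : ℝ) ^ 3 ≤ (n : ℝ) ^ 3 := pow_le_pow_left₀ (by norm_num) hn' 3
  have c1 : 0.247 * (n : ℝ) ^ 3 - 0.344 * (n : ℝ) ^ 2 ≤
      2 * (((exp (-2) * ((2 : ℝ) ^ 2 + 2 * 2 + 2) - exp (-4) * ((4 : ℝ) ^ 2 + 2 * 4 + 2))
        * (n : ℝ) ^ 3 / 8 - (n : ℝ) ^ 2 * exp (-2)) +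
       2 * ((exp (-4) * ((4 : ℝ) ^ 2 + 2 * 4 + 2) - exp (-8) * ((8 : ℝ) ^ 2 + 2 * 8 + 2))
        * (n : ℝ) ^ 3 / 64 - (n : ℝ) ^ 2 * exp (-4))) := by
    have d1 : (0.247 : ℝ) ≤ 2 * ((exp (-2) * 10 - exp (-4) * 26) / 8
        + 2 * ((exp (-4) * 26 - exp (-8) * 82) / 64)) := by
      norm_num at x2l x4u x8u ⊢
      linarith
    have d2 : 2 * (exp (-2) + 2 * exp (-4)) ≤ 0.344 := by
      norm_num at x2u x4u ⊢
      linarith
    have d3 := mul_le_mul_of_nonneg_right d1 (show 0 ≤ (n : ℝ) ^ 3 by positivity)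
    have d4 := mul_le_mul_of_nonneg_right d2 (show 0 ≤ (n : ℝ) ^ 2 by positivity)
    have e : 2 * (((exp (-2) * ((2 : ℝ) ^ 2 + 2 * 2 + 2) - exp (-4) * ((4 : ℝ) ^ 2 + 2 * 4 + 2))
        * (n : ℝ) ^ 3 / 8 - (n : ℝ) ^ 2 * exp (-2)) +
       2 * ((exp (-4) * ((4 : ℝ) ^ 2 + 2 * 4 + 2) - exp (-8) * ((8 : ℝ) ^ 2 + 2 * 8 + 2))
        * (n : ℝ) ^ 3 / 64 - (n : ℝ) ^ 2 * exp (-4)))
        = 2 * ((exp (-2) * 10 - exp (-4) * 26) / 8
        + 2 * ((exp (-4) * 26 - exp (-8) * 82) / 64)) * (n : ℝ) ^ 3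
        - 2 * (exp (-2) + 2 * exp (-4)) * (n : ℝ) ^ 2 := by ring
    rw [e]
    linarith
  linarith

end C048
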