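import Pool.Agent.helper70.KU.Alg
import Pool.Agent.helper70.KU.DB
import Pool.Agent.helper14.KU.CR
import Pool.Agent.helper14.KU.FIN1
import Pool.Agent.helper14.KU.TR
import Pool.Agent.helper18.KU.AB
import Pool.Agent.helper18.KU.TRIV
import Pool.Agent.helper35.KU.ELL
import Pool.Agent.helper35.KU.PI
import Pool.Agent.helper35.KU.VB
import Pool.Agent.helper45.KU.Q
import Pool.Agent.helper53.KU.A1
import Pool.Agent.helper53.KU.A2
import Pool.Agent.helper53.KU.ABS
import Pool.Agent.helper53.KU.MV12
import Pool.Agent.helper63.KU.EXP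
import Pool.Agent.helper63.KU.MV3
import Pool.Agent.helper63.KU.S1C
import Pool.Agent.helper77.KU.T1N
import Pool.Agent.helper77.KU.VU
import Pool.Agent.helper91.KU.A3
import Pool.Agent.helper91.KU.GL5
import Pool.Agent.helper18.KU.X2
import Pool.Agent.helper18.KU.X3
import Pool.Agent.helper63.KU.GLM
import Pool.Agent.helper70.KU.VN
import Pool.Agent.helper77.KU.CHK
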