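import Pool.Agent.helper70.KU.FinDefs

/-! Module FIN2 of MP_c048c3_co: kernel computation, `2 ≤ n ≤ 119`. -/

namespace C048

set_option maxRecDepth 100000 in
theorem run_a : run 832 (Hm 832 70805) 118 1 (1 * fA 832 0 / fB 832 0) = true := by
  decide +kernel

end C048
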