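import Pool.Agent.helper70.KU.FinRunA

/-! Module FIN2 of MP_c048c3_co: kernel computation, `120 ≤ n ≤ 149`.
(It imports the first run only to serialise the two memory-hungry computations.) -/

namespace C048

def pA (w n : ℕ) (s : ℕ) : ℕ :=
  Nat.rec (motive := fun _ => ℕ) 1 (fun i ih => ih * fA w (n + i)) s

def pB (w n : ℕ) (s : ℕ) : ℕ :=
  Nat.rec (motive := fun _ => ℕ) 1 (fun i ih => ih * fB w (n + i)) s

/-- `f` jumps of length `s` starting from `N = P_n(W)`, then `g` -/
def chainK (w s f : ℕ) (n N : ℕ) (g : ℕ → ℕ → Bool) : Bool :=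
  Nat.rec (motive := fun _ => ℕ → ℕ → Bool) g
    (fun _ ih n N => ih (n + s) (N * pA w n s / pB w n s)) f n N

set_option maxRecDepth 100000 in
theorem run_b : chainK 1024 17 7 0 1 (run 1024 (Hm 1024 111005) 30) = true := by
  decide +kernel

end C048
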