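import Pool.Agent.helper70.KU.Alg
import Pool.Agent.helper70.KU.FinRunA
import Pool.Agent.helper70.KU.FinRunB

/-! Module FIN2 of MP_c048c3_co: the recurrence `P_n(W) → P_{n+1}(W)` and soundness of `run`. -/

namespace C048

open Finset Polynomial

theorem step_identity (n : ℕ) :
    toZ (PN (n + 1)) * ((1 - X ^ (2 * n + 1)) * (1 - X ^ (2 * n + 2)) * (1 + X ^ (n + 1)))
      = toZ (PN n) * ((1 + X ^ (3 * n + 1)) * (1 + X ^ (3 * n + 2)) * (1 + X ^ (3 * n + 3))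
          * (X ^ (2 * n + 1) + (X ^ (4 * n + 2) + 1)) * ((1 - X ^ (6 * n + 1)) * (1 - X ^ (6 * n + 5)))) := by
  have h0 : toZ (PN n) * (qfac (3 * n) * qfac (2 * n) ^ 2) = qfac (6 * n) * qfac n := PN_identity n
  have h1 : toZ (PN (n + 1)) * (qfac (3 * (n + 1)) * qfac (2 * (n + 1)) ^ 2)
    = qfac (6 * (n + 1)) * qfac (n + 1) := PN_identity (n + 1)
  have e3 : 3 * (n + 1) = 3 * n + 1 + 1 + 1 := by ring
  have e2 : 2 * (n + 1) = 2 * n + 1 + 1 := by ring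
  have e6 : 6 * (n + 1) = 6 * n + 1 + 1 + 1 + 1 + 1 + 1 := by ring
  rw [e3, e2, e6] at h1
  rw [qfac_succ (3 * n + 1 + 1), qfac_succ (3 * n + 1), qfac_succ (3 * n),
    qfac_succ (2 * n + 1), qfac_succ (2 * n), qfac_succ (6 * n + 1 + 1 + 1 + 1 + 1),
    qfac_succ (6 * n + 1 + 1 + 1 + 1), qfac_succ (6 * n + 1 + 1 + 1), qfac_succ (6 * n + 1 + 1),
    qfac_succ (6 * n + 1), qfac_succ (6 * n), qfac_succ n] at h1
  have hA : (qfac (3 * n) * qfac (2 * n) ^ 2) ≠ 0 :=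
    mul_ne_zero (qfac_ne_zero _) (pow_ne_zero _ (qfac_ne_zero _))
  have hne : ∀ m, (1 - X ^ (m + 1) : ℤ[X]) ≠ 0 := one_sub_X_pow_ne_zero
  have hC : (qfac (3 * n) * qfac (2 * n) ^ 2) * ((1 - X ^ (3 * n + 1)) * (1 - X ^ (3 * n + 1 + 1))
      * (1 - X ^ (3 * n + 1 + 1 + 1)) * (1 - X ^ (2 * n + 1)) * (1 - X ^ (n + 1))) ≠ (0 : ℤ[X]) :=
    mul_ne_zero hA (mul_ne_zero (mul_ne_zero (mul_ne_zero (mul_ne_zero (hne _) (hne _)) (hne _))
      (hne _)) (hne _))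
  apply mul_left_cancel₀ hC
  generalize hP0 : toZ (PN n) = P0 at h0 ⊢
  generalize hP1 : toZ (PN (n + 1)) = P1 at h1 ⊢
  generalize qfac (3 * n) = Q3 at h0 h1 ⊢
  generalize qfac (2 * n) = Q2 at h0 h1 ⊢
  generalize qfac (6 * n) = Q6 at h0 h1 ⊢
  generalize qfac n = Q1 at h0 h1 ⊢
  have x1 : (X : ℤ[X]) ^ (n + 1) = X ^ n * X := by rw [pow_succ]
  have x21 : (X : ℤ[X]) ^ (2 * n + 1) = (X ^ n) ^ 2 * X := by rw [pow_succ, mul_comm 2 n, pow_mul]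
  have x22 : (X : ℤ[X]) ^ (2 * n + 1 + 1) = (X ^ n) ^ 2 * X ^ 2 := by
    rw [Nat.add_assoc, pow_add, mul_comm 2 n, pow_mul]
  have x22' : (X : ℤ[X]) ^ (2 * n + 2) = (X ^ n) ^ 2 * X ^ 2 := by
    rw [pow_add, mul_comm 2 n, pow_mul]
  have x31 : (X : ℤ[X]) ^ (3 * n + 1) = (X ^ n) ^ 3 * X := by rw [pow_succ, mul_comm 3 n, pow_mul]
  have x32 : (X : ℤ[X]) ^ (3 * n + 1 + 1) = (X ^ n) ^ 3 * X ^ 2 := by
    rw [Nat.add_assoc, pow_add, mul_comm 3 n, pow_mul]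
  have x32' : (X : ℤ[X]) ^ (3 * n + 2) = (X ^ n) ^ 3 * X ^ 2 := by
    rw [pow_add, mul_comm 3 n, pow_mul]
  have x33 : (X : ℤ[X]) ^ (3 * n + 1 + 1 + 1) = (X ^ n) ^ 3 * X ^ 3 := by
    rw [Nat.add_assoc, Nat.add_assoc, pow_add, mul_comm 3 n, pow_mul]
  have x33' : (X : ℤ[X]) ^ (3 * n + 3) = (X ^ n) ^ 3 * X ^ 3 := by
    rw [pow_add, mul_comm 3 n, pow_mul]
  have x42 : (X : ℤ[X]) ^ (4 * n + 2) = (X ^ n) ^ 4 * X ^ 2 := by
    rw [pow_add, mul_comm 4 n, pow_mul]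
  have x61 : (X : ℤ[X]) ^ (6 * n + 1) = (X ^ n) ^ 6 * X := by rw [pow_succ, mul_comm 6 n, pow_mul]
  have x62 : (X : ℤ[X]) ^ (6 * n + 1 + 1) = (X ^ n) ^ 6 * X ^ 2 := by
    rw [Nat.add_assoc, pow_add, mul_comm 6 n, pow_mul]
  have x63 : (X : ℤ[X]) ^ (6 * n + 1 + 1 + 1) = (X ^ n) ^ 6 * X ^ 3 := by
    rw [Nat.add_assoc, Nat.add_assoc, pow_add, mul_comm 6 n, pow_mul]
  have x64 : (X : ℤ[X]) ^ (6 * n + 1 + 1 + 1 + 1) = (X ^ n) ^ 6 * X ^ 4 := by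
    rw [Nat.add_assoc, Nat.add_assoc, Nat.add_assoc, pow_add, mul_comm 6 n, pow_mul]
  have x65 : (X : ℤ[X]) ^ (6 * n + 1 + 1 + 1 + 1 + 1) = (X ^ n) ^ 6 * X ^ 5 := by
    rw [Nat.add_assoc, Nat.add_assoc, Nat.add_assoc, Nat.add_assoc, pow_add, mul_comm 6 n, pow_mul]
  have x65' : (X : ℤ[X]) ^ (6 * n + 5) = (X ^ n) ^ 6 * X ^ 5 := by
    rw [pow_add, mul_comm 6 n, pow_mul]
  have x66 : (X : ℤ[X]) ^ (6 * n + 1 + 1 + 1 + 1 + 1 + 1) = (X ^ n) ^ 6 * X ^ 6 := by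
    rw [Nat.add_assoc, Nat.add_assoc, Nat.add_assoc, Nat.add_assoc, Nat.add_assoc, pow_add,
      mul_comm 6 n, pow_mul]
  rw [x1, x21, x22, x31, x32, x33, x61, x62, x63, x64, x65, x66] at h1
  rw [x1, x21, x22', x31, x32, x33, x42, x61, x65']
  generalize (X : ℤ[X]) ^ n = y at h0 h1 ⊢
  generalize (X : ℤ[X]) = q at h0 h1 ⊢
  have h1' : P1 * (Q3 * Q2 ^ 2 * ((1 - y ^ 3 * q) * (1 - y ^ 3 * q ^ 2) * (1 - y ^ 3 * q ^ 3)
      * (1 - y ^ 2 * q) * (1 - y * q))) * ((1 - y ^ 2 * q) * (1 - y ^ 2 * q ^ 2) * (1 + y * q))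
      = (Q6 * Q1) * ((1 - y ^ 6 * q) * (1 - y ^ 6 * q ^ 2) * (1 - y ^ 6 * q ^ 3)
        * (1 - y ^ 6 * q ^ 4) * (1 - y ^ 6 * q ^ 5) * (1 - y ^ 6 * q ^ 6) * (1 - y * q)) := by
    have e : (1 - y * q) * (1 + y * q) = 1 - y ^ 2 * q ^ 2 := by ring
    calc _ = P1 * (Q3 * (1 - y ^ 3 * q) * (1 - y ^ 3 * q ^ 2) * (1 - y ^ 3 * q ^ 3)
          * (Q2 * (1 - y ^ 2 * q) * ((1 - y * q) * (1 + y * q)))
            * (Q2 * (1 - y ^ 2 * q) * (1 - y ^ 2 * q ^ 2))) := by ring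
      _ = P1 * (Q3 * (1 - y ^ 3 * q) * (1 - y ^ 3 * q ^ 2) * (1 - y ^ 3 * q ^ 3)
          * (Q2 * (1 - y ^ 2 * q) * (1 - y ^ 2 * q ^ 2)) ^ 2) := by rw [e]; ring
      _ = _ := by rw [h1]; ring
  have e2 : (1 - y ^ 6 * q ^ 2) = (1 - y ^ 3 * q) * (1 + y ^ 3 * q) := by ring
  have e4 : (1 - y ^ 6 * q ^ 4) = (1 - y ^ 3 * q ^ 2) * (1 + y ^ 3 * q ^ 2) := by ring
  have e6' : (1 - y ^ 6 * q ^ 6) = (1 - y ^ 3 * q ^ 3) * (1 + y ^ 3 * q ^ 3) := by ring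
  have e3' : (1 - y ^ 6 * q ^ 3) = (1 - y ^ 2 * q) * (y ^ 2 * q + (y ^ 4 * q ^ 2 + 1)) := by ring
  rw [e2, e4, e6', e3', ← h0] at h1'
  calc _ = P1 * (Q3 * Q2 ^ 2 * ((1 - y ^ 3 * q) * (1 - y ^ 3 * q ^ 2) * (1 - y ^ 3 * q ^ 3)
      * (1 - y ^ 2 * q) * (1 - y * q))) * ((1 - y ^ 2 * q) * (1 - y ^ 2 * q ^ 2) * (1 + y * q)) := by
        ring
    _ = _ := by rw [h1']; ring

/-- `P_n(2^w)` -/
noncomputable def NN (w n : ℕ) : ℕ := (PN n).eval (2 ^ w)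

theorem toZ_eval (p : ℕ[X]) (x : ℕ) : (toZ p).eval (x : ℤ) = ((p.eval x : ℕ) : ℤ) := by
  have h := Polynomial.eval_natCast_map (Nat.castRingHom ℤ) p x
  rw [Nat.cast_id] at h
  exact h

theorem NN_step (w n : ℕ) : NN w (n + 1) * fB w n = NN w n * fA w n := by
  have h := congrArg (fun p : ℤ[X] => p.eval (((2 ^ w : ℕ) : ℤ))) (step_identity n)
  simp only [eval_mul, toZ_eval, eval_sub, eval_add, eval_pow, eval_one, eval_X] at h
  have hp : ∀ k, 1 ≤ 2 ^ (w * k) := fun k => Nat.one_le_two_pow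
  have hZ : ((NN w (n + 1) * fB w n : ℕ) : ℤ) = ((NN w n * fA w n : ℕ) : ℤ) := by
    simp only [fA, fB, NN, Nat.one_shiftLeft]
    push_cast [Nat.cast_sub (hp _)]
    push_cast at h
    simp only [← pow_mul] at h
    linear_combination h
  exact_mod_cast hZ

theorem fB_pos {w : ℕ} (hw : 1 ≤ w) (n : ℕ) : 0 < fB w n := by
  simp only [fB, Nat.one_shiftLeft]
  have h : ∀ k, 1 ≤ k → 1 < 2 ^ (w * k) := fun k hk =>
    Nat.one_lt_two_pow (by positivity)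
  have h1 := h (2 * n + 1) (by omega)
  have h2 := h (2 * n + 2) (by omega)
  exact Nat.mul_pos (Nat.mul_pos (Nat.sub_pos_of_lt h1) (Nat.sub_pos_of_lt h2)) (Nat.succ_pos _)

theorem NN_div {w : ℕ} (hw : 1 ≤ w) (n : ℕ) : NN w n * fA w n / fB w n = NN w (n + 1) :=
  Nat.div_eq_of_eq_mul_left (fB_pos hw n) (NN_step w n).symm

theorem run_sound {w : ℕ} (hw : 1 ≤ w) (H : ℕ) : ∀ f n, run w H f n (NN w n) = true →
    ∀ j, n < j → j ≤ n + f → okN w H (w * (5 * j * j + 1)) (NN w j) = true := by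
  intro f
  induction f with
  | zero => intro n _ j h1 h2; omega
  | succ f ih =>
    intro n h j h1 h2
    have hr : run w H (f + 1) n (NN w n) = (okN w H (w * (5 * (n + 1) * (n + 1) + 1))
      (NN w n * fA w n / fB w n) && run w H f (n + 1) (NN w n * fA w n / fB w n)) := rfl
    rw [hr, NN_div hw, Bool.and_eq_true] at h
    rcases Nat.lt_or_ge (n + 1) j with h3 | h3
    · exact ih (n + 1) h.2 j h3 (by omega)
    · have : j = n + 1 := by omega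
      subst this
      exact h.1

theorem pB_pos {w : ℕ} (hw : 1 ≤ w) (n s : ℕ) : 0 < pB w n s := by
  induction s with
  | zero => exact Nat.one_pos
  | succ s ih => exact Nat.mul_pos ih (fB_pos hw _)

theorem NN_jump (w n s : ℕ) : NN w (n + s) * pB w n s = NN w n * pA w n s := by
  induction s with
  | zero => rfl
  | succ s ih =>
    have h := NN_step w (n + s)
    have hA : pA w n (s + 1) = pA w n s * fA w (n + s) := rfl
    have hB : pB w n (s + 1) = pB w n s * fB w (n + s) := rfl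
    rw [hA, hB, ← Nat.add_assoc]
    calc NN w (n + s + 1) * (pB w n s * fB w (n + s))
        = (NN w (n + s + 1) * fB w (n + s)) * pB w n s := by ring
      _ = (NN w (n + s) * pB w n s) * fA w (n + s) := by rw [h]; ring
      _ = NN w n * (pA w n s * fA w (n + s)) := by rw [ih]; ring

theorem chain_sound {w : ℕ} (hw : 1 ≤ w) (s : ℕ) (g : ℕ → ℕ → Bool) : ∀ f n,
    chainK w s f n (NN w n) g = true → g (n + f * s) (NN w (n + f * s)) = true := by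
  intro f
  induction f with
  | zero => intro n h; simpa [chainK] using h
  | succ f ih =>
    intro n h
    have hr : chainK w s (f + 1) n (NN w n) g
      = chainK w s f (n + s) (NN w n * pA w n s / pB w n s) g := rfl
    rw [hr, Nat.div_eq_of_eq_mul_left (pB_pos hw n s) (NN_jump w n s).symm] at h
    have h2 := ih (n + s) h
    have e : n + (f + 1) * s = n + s + f * s := by ring
    rw [e]; exact h2

theorem NN_zero (w : ℕ) : NN w 0 = 1 := by simp [NN, PN, BB_zero_right]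

theorem NN_one {w : ℕ} (hw : 1 ≤ w) : NN w 1 = 1 * fA w 0 / fB w 0 := by
  have h := NN_div hw 0
  rw [NN_zero] at h
  exact h.symm

theorem NN_eq_sum (w n : ℕ) : NN w n = ∑ k ∈ range (10 * n ^ 2 + 1), a n k * 2 ^ (w * k) := by
  rw [NN, eval_eq_sum_range, natDegree_PN]
  apply sum_congr rfl
  intro k _
  rw [a, pow_mul]

/-- the statement of FIN1 -/
def TestSound : Prop := ∀ (w Lm L K : ℕ), 2 ≤ w → L ≤ Lm → ∀ (c : ℕ → ℕ),
    (∀ k, c k < 2 ^ (w - 1)) →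
    okN w (Hm w Lm) (w * (L + 1)) (∑ k ∈ range K, c k * 2 ^ (w * k)) = true →
    L < K → ∀ k, k + 1 ≤ L → c k ≤ c (k + 1)

theorem check_of_ok (hts : TestSound) {w Lm n : ℕ} (hw : 2 ≤ w)
    (hL : 5 * n * n ≤ Lm) (hb : 108 ^ n < 2 ^ (w - 1))
    (h : okN w (Hm w Lm) (w * (5 * n * n + 1)) (NN w n) = true) (k : ℕ) (hk : k + 1 ≤ 5 * n ^ 2) :
    a n k ≤ a n (k + 1) := by
  rw [NN_eq_sum] at h
  refine hts w Lm (5 * n * n) (10 * n ^ 2 + 1) hw hL (a n) (fun k => lt_of_le_of_lt (a_le n k) hb) h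
    (by nlinarith) k (by nlinarith)

/-- FIN -/
theorem finite_check (hts : TestSound) (n : ℕ) (h2 : 2 ≤ n) (h149 : n ≤ 149) (k : ℕ)
    (hk : k + 1 ≤ 5 * n ^ 2) : a n k ≤ a n (k + 1) := by
  rcases Nat.lt_or_ge n 120 with h | h
  · have hr := run_a
    rw [← NN_one (w := 832) (by norm_num)] at hr
    have ho := run_sound (w := 832) (by norm_num) _ 118 1 hr n (by omega) (by omega)
    have hn : n ≤ 119 := by omega
    have hL : 5 * n * n ≤ 70805 :=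
      le_trans (Nat.mul_le_mul (Nat.mul_le_mul_left 5 hn) hn) (by norm_num)
    have hb : 108 ^ 119 < 2 ^ (832 - 1) := by decide +kernel
    exact check_of_ok hts (by norm_num) hL
      (lt_of_le_of_lt (Nat.pow_le_pow_right (by norm_num) hn) hb) ho k hk
  · have hr := run_b
    rw [← NN_zero 1024] at hr
    have hc : run 1024 (Hm 1024 111005) 30 119 (NN 1024 119) = true :=
      chain_sound (w := 1024) (by norm_num) 17 _ 7 0 hr
    have ho := run_sound (w := 1024) (by norm_num) _ 30 119 hc n (by omega) (by omega)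
    have hL : 5 * n * n ≤ 111005 :=
      le_trans (Nat.mul_le_mul (Nat.mul_le_mul_left 5 h149) h149) (by norm_num)
    have hb : 108 ^ 149 < 2 ^ (1024 - 1) := by decide +kernel
    exact check_of_ok hts (by norm_num) hL
      (lt_of_le_of_lt (Nat.pow_le_pow_right (by norm_num) h149) hb) ho k hk

end C048
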