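import Pool.Agent.helper70.KU.All
import Pool.Agent.helper70.KU.Fin

/-! Assembly of MP_c048c3_co. -/

namespace C048

open Finset

/-! ### small numerical facts -/

theorem nge {n : ℕ} (hn : 150 ≤ n) : (150 : ℝ) ≤ n := by exact_mod_cast hn

theorem cube_fact {x : ℝ} (hx : 150 ≤ x) :
    1494 * x ^ 3 + 592 * x ^ 2 + 58 * x ≤ 1498 * x ^ 3 := by
  nlinarith [sq_nonneg x, mul_nonneg (sq_nonneg x) (sub_nonneg.mpr hx),
    mul_nonneg (show 0 ≤ x by linarith) (sub_nonneg.mpr hx)]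

theorem exp_one_bd : (2.7182818283 : ℝ) < Real.exp 1 ∧ Real.exp 1 < 2.7182818286 :=
  ⟨Real.exp_one_gt_d9, Real.exp_one_lt_d9⟩

theorem exp_three_le : Real.exp 3 ≤ 20.0856 := by
  have h : Real.exp 3 = Real.exp 1 ^ 3 := by rw [← Real.exp_nat_mul]; norm_num
  rw [h]
  have h1 := exp_one_bd.2
  have h0 := Real.exp_pos 1
  calc Real.exp 1 ^ 3 ≤ 2.7182818286 ^ 3 := by gcongr
    _ ≤ 20.0856 := by norm_num

theorem cosh_sq_15 : Real.cosh (3 / 2) ^ 2 ≤ 5.5345 := by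
  have h := Real.cosh_sq (3 / 2)
  have h2 : Real.cosh (3 / 2) ^ 2 = (Real.cosh 3 + 1) / 2 := by
    have := Real.cosh_two_mul (3 / 2)
    rw [show (2 : ℝ) * (3 / 2) = 3 by norm_num] at this
    rw [this]; linarith
  rw [h2, Real.cosh_eq]
  have h3 := exp_three_le
  have h4 : Real.exp (-3) ≤ 0.05 := by
    rw [Real.exp_neg]
    rw [inv_le_comm₀ (Real.exp_pos 3) (by norm_num)]
    have h : Real.exp 3 = Real.exp 1 ^ 3 := by rw [← Real.exp_nat_mul]; norm_num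
    rw [h]
    have h1 := exp_one_bd.1
    calc (0.05 : ℝ)⁻¹ ≤ 2.7182818283 ^ 3 := by norm_num
      _ ≤ Real.exp 1 ^ 3 := by gcongr
  linarith

theorem cosh_sq_075 : Real.cosh (3 / 4) ^ 2 ≤ 1.677 := by
  have h := Real.cosh_sq (3 / 4)
  have h2 : Real.cosh (3 / 4) ^ 2 = (Real.cosh (3 / 2) + 1) / 2 := by
    have := Real.cosh_two_mul (3 / 4)
    rw [show (2 : ℝ) * (3 / 4) = 3 / 2 by norm_num] at this
    rw [this]; linarith
  rw [h2]
  have h3 := cosh_sq_15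
  have h4 : Real.cosh (3 / 2) ≤ 2.353 := by
    have := Real.cosh_pos (3 / 2)
    nlinarith
  linarith

theorem ELL_half (n : ℕ) (hn : 150 ≤ n) {τ θ : ℝ} (hτ : 0 < τ) (hτ1 : n * τ ≤ 1 / 2)
    (h0 : Real.pi / 4 ≤ n * θ) (h1 : n * θ ≤ 2) : 0.29 * n ≤ E n τ θ := by
  have hn' := nge hn
  refine le_trans ?_ (E_ELL n (by omega) hτ h0 h1)
  have hc : Real.cosh (3 * n * τ / 2) ≤ Real.cosh (3 / 4) := by
    rw [Real.cosh_le_cosh, abs_of_nonneg (by positivity), abs_of_nonneg (by norm_num)]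
    linarith
  have hp := Real.cosh_pos (3 * n * τ / 2)
  have h3 : Real.cosh (3 * n * τ / 2) ^ 2 ≤ 1.677 :=
    le_trans (by gcongr) cosh_sq_075
  rw [le_div_iff₀ (by positivity)]
  nlinarith

theorem ELL_one (n : ℕ) (hn : 150 ≤ n) {τ θ : ℝ} (hτ : 0 < τ) (hτ1 : n * τ ≤ 1)
    (h0 : Real.pi / 4 ≤ n * θ) (h1 : n * θ ≤ 2) : 0.09 * n ≤ E n τ θ := by
  have hn' := nge hn
  refine le_trans ?_ (E_ELL n (by omega) hτ h0 h1)
  have hc : Real.cosh (3 * n * τ / 2) ≤ Real.cosh (3 / 2) := by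
    rw [Real.cosh_le_cosh, abs_of_nonneg (by positivity), abs_of_nonneg (by norm_num)]
    linarith
  have hp := Real.cosh_pos (3 * n * τ / 2)
  have h3 : Real.cosh (3 * n * τ / 2) ^ 2 ≤ 5.5345 :=
    le_trans (by gcongr) cosh_sq_15
  rw [le_div_iff₀ (by positivity)]
  nlinarith

/-! ### continuity -/

theorem fE_cont (τ : ℝ) (i : ℕ) : Continuous (fun θ => fE τ θ i) := by
  unfold fE
  refine Continuous.div_const (Continuous.log ?_ ?_) 2
  · fun_prop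
  · intro θ
    have : 0 ≤ Real.sin (i * θ / 2) ^ 2 / Real.sinh (i * τ / 2) ^ 2 := by positivity
    linarith

theorem E_cont (n : ℕ) (τ : ℝ) : Continuous (fun θ => E n τ θ) := by
  unfold E D
  have h := fE_cont τ
  fun_prop

theorem g_cont (n : ℕ) (τ : ℝ) : Continuous (fun θ => Real.exp (-(E n τ θ))) := by
  have := E_cont n τ
  fun_prop

/-! ### V is nonnegative, upper bound -/

theorem V_up_basic (n : ℕ) (hn : 150 ≤ n) {τ : ℝ} (hτ : 0 < τ) : V n τ ≤ 4.84 * (n : ℝ) ^ 3 := by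
  refine le_trans (V_le n hτ) ?_
  have hn' := nge hn
  unfold S2
  nlinarith [mul_nonneg (sq_nonneg (n : ℝ)) (sub_nonneg.mpr hn')]

/-! ### the zones given by `PI` -/

theorem sin_sq_lower {x : ℝ} (h0 : 0 ≤ x) (h1 : x ≤ Real.pi / 4) :
    8 / Real.pi ^ 2 * x ^ 2 ≤ Real.sin x ^ 2 := by
  have hpi := Real.pi_pos
  have hcon := strictConcaveOn_sin_Icc.concaveOn
  have h4 : Real.sin (Real.pi / 4) = Real.sqrt 2 / 2 := Real.sin_pi_div_four
  -- x = t * (π/4)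
  have ht : x = (1 - 4 * x / Real.pi) * 0 + (4 * x / Real.pi) * (Real.pi / 4) := by
    field_simp; ring
  have ht0 : 0 ≤ 4 * x / Real.pi := by positivity
  have ht1 : 4 * x / Real.pi ≤ 1 := by rw [div_le_one hpi]; linarith
  have h := hcon.2 (show (0:ℝ) ∈ Set.Icc 0 Real.pi by constructor <;> linarith)
    (show Real.pi / 4 ∈ Set.Icc 0 Real.pi by constructor <;> linarith)
    (show 0 ≤ 1 - 4 * x / Real.pi by linarith) ht0 (by ring)
  simp only [smul_eq_mul, Real.sin_zero, mul_zero, zero_add] at h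
  rw [h4] at h
  have h5 : (1 - 4 * x / Real.pi) * 0 + (4 * x / Real.pi) * (Real.pi / 4) = x := ht.symm
  rw [mul_zero, zero_add] at h5
  rw [h5] at h
  have h6 : 0 ≤ 4 * x / Real.pi * (Real.sqrt 2 / 2) := by positivity
  calc 8 / Real.pi ^ 2 * x ^ 2 = (4 * x / Real.pi * (Real.sqrt 2 / 2)) ^ 2 := by
        have : Real.sqrt 2 ^ 2 = 2 := Real.sq_sqrt (by norm_num)
        field_simp
        rw [this]; ring
    _ ≤ Real.sin x ^ 2 := by gcongr

theorem sin_sq_half {x : ℝ} (h0 : Real.pi / 4 ≤ x) (h1 : x ≤ 3 * Real.pi / 4) :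
    1 / 2 ≤ Real.sin x ^ 2 := by
  have h := Real.cos_sq_add_sin_sq x
  have h2 : Real.cos (2 * x) ≤ 0 := Real.cos_nonpos_of_pi_div_two_le_of_le (by linarith)
    (by linarith)
  rw [Real.cos_two_mul] at h2
  linarith

theorem sin_sq_34 {x : ℝ} (h0 : Real.pi / 3 ≤ x) (h1 : x ≤ 2 * Real.pi / 3) :
    3 / 4 ≤ Real.sin x ^ 2 := by
  have hpi := Real.pi_pos
  have h : |Real.cos x| ≤ 1 / 2 := by
    rw [abs_le]
    constructor
    · have := Real.cos_le_cos_of_nonneg_of_le_pi (by linarith) (by linarith) h1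
      have h3 : Real.cos (2 * Real.pi / 3) = -(1 / 2) := by
        rw [show 2 * Real.pi / 3 = Real.pi - Real.pi / 3 by ring, Real.cos_pi_sub,
          Real.cos_pi_div_three]
      rw [h3] at this
      exact this
    · have := Real.cos_le_cos_of_nonneg_of_le_pi (by linarith) (by linarith) h0
      rw [Real.cos_pi_div_three] at this
      exact this
  have h2 : Real.cos x ^ 2 ≤ 1 / 4 := by
    have := sq_le_sq' (abs_le.mp h).1 (abs_le.mp h).2
    linarith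
  have h3 := Real.cos_sq_add_sin_sq x
  linarith

section zones

variable {n : ℕ} {τ : ℝ}

theorem zone_a (hn : 1 ≤ n) (hτ : 0 < τ) (hV : 0 ≤ V n τ) {θ : ℝ} (h0 : 0 ≤ θ)
    (h1 : θ ≤ Real.pi / (12 * n)) :
    Real.exp (-(E n τ θ)) ≤ Real.exp (-(4 / Real.pi ^ 2) * V n τ * θ ^ 2) := by
  have hpi := Real.pi_pos
  have hn' : (1 : ℝ) ≤ n := by exact_mod_cast hn
  have hx : 3 * n * θ ≤ Real.pi / 4 := by
    rw [le_div_iff₀ (by positivity)] at h1
    linarith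
  apply Real.exp_le_exp.mpr
  have hP := E_PI n hn hτ h0 (by linarith)
  have hs := sin_sq_lower (x := 3 * n * θ) (by positivity) hx
  have : 4 / Real.pi ^ 2 * V n τ * θ ^ 2 ≤ V n τ * Real.sin (3 * n * θ) ^ 2 / (18 * (n : ℝ) ^ 2) := by
    rw [le_div_iff₀ (by positivity)]
    calc 4 / Real.pi ^ 2 * V n τ * θ ^ 2 * (18 * (n : ℝ) ^ 2)
        = V n τ * (8 / Real.pi ^ 2 * (3 * n * θ) ^ 2) := by ring
      _ ≤ V n τ * Real.sin (3 * n * θ) ^ 2 := by gcongr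
  linarith

theorem zone_half (hn : 1 ≤ n) (hτ : 0 < τ) (hV : 0 ≤ V n τ) {θ : ℝ}
    (h0 : Real.pi / 4 ≤ 3 * n * θ) (h1 : 3 * n * θ ≤ 3 * Real.pi / 4) (hθ : 0 ≤ θ) :
    Real.exp (-(E n τ θ)) ≤ Real.exp (-(V n τ / (36 * (n : ℝ) ^ 2))) := by
  have hpi := Real.pi_pos
  have hn' : (1 : ℝ) ≤ n := by exact_mod_cast hn
  apply Real.exp_le_exp.mpr
  have hP := E_PI n hn hτ hθ (by linarith)
  have hs := sin_sq_half h0 h1
  have : V n τ / (36 * (n : ℝ) ^ 2) ≤ V n τ * Real.sin (3 * n * θ) ^ 2 / (18 * (n : ℝ) ^ 2) := by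
    rw [div_le_div_iff₀ (by positivity) (by positivity)]
    have : V n τ * (1 / 2) ≤ V n τ * Real.sin (3 * n * θ) ^ 2 := by gcongr
    nlinarith [sq_nonneg (n : ℝ)]
  linarith

theorem zone_34 (hn : 1 ≤ n) (hτ : 0 < τ) (hV : 0 ≤ V n τ) {θ : ℝ}
    (h0 : Real.pi / 3 ≤ 3 * n * θ) (h1 : 3 * n * θ ≤ 2 * Real.pi / 3) (hθ : 0 ≤ θ) :
    Real.exp (-(E n τ θ)) ≤ Real.exp (-(V n τ / (24 * (n : ℝ) ^ 2))) := by
  have hpi := Real.pi_pos
  have hn' : (1 : ℝ) ≤ n := by exact_mod_cast hn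
  apply Real.exp_le_exp.mpr
  have hP := E_PI n hn hτ hθ (by linarith)
  have hs := sin_sq_34 h0 h1
  have : V n τ / (24 * (n : ℝ) ^ 2) ≤ V n τ * Real.sin (3 * n * θ) ^ 2 / (18 * (n : ℝ) ^ 2) := by
    rw [div_le_div_iff₀ (by positivity) (by positivity)]
    have : V n τ * (3 / 4) ≤ V n τ * Real.sin (3 * n * θ) ^ 2 := by gcongr
    nlinarith [sq_nonneg (n : ℝ)]
  linarith

end zones

/-- regimes with `nτ ≤ 2`: it remains to give the bounds on the last three zones -/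
theorem cr_of_hfin (n : ℕ) (hn : 150 ≤ n) (m : ℕ) {τ : ℝ} (hτ : 0 < τ)
    (hV : 40 * (n : ℝ) ^ 2 ≤ V n τ) (hμ : mu n τ = ((m + 1 : ℕ) : ℝ)) {c4 c5 c6 : ℝ}
    (h4 : ∀ θ : ℝ, Real.pi / 4 ≤ n * θ → n * θ ≤ Real.pi / 2 → c4 * n ≤ E n τ θ)
    (h5 : ∀ θ : ℝ, Real.pi / 2 ≤ n * θ → n * θ ≤ 4 → c5 * n ≤ E n τ θ)
    (h6 : ∀ θ : ℝ, 4 ≤ n * θ → θ ≤ Real.pi → c6 * n ≤ E n τ θ)
    (hf : hfin n (V n τ) τ (Real.exp (-(c4 * n))) (Real.exp (-(c5 * n))) (Real.exp (-(c6 * n)))) :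
    a n m < a n (m + 1) := by
  have hn1 : 1 ≤ n := by omega
  have hn' := nge hn
  have hnp : (0 : ℝ) < n := by linarith
  have hpi := Real.pi_pos
  have hV0 : 0 < V n τ := lt_of_lt_of_le (by positivity) hV
  have hs0 : 0 < Real.sqrt (V n τ) := Real.sqrt_pos.mpr hV0
  have hs1 : 900 ≤ Real.sqrt (V n τ) := by
    apply Real.le_sqrt_of_sq_le
    nlinarith
  have hθ0 : 1.6 / Real.sqrt (V n τ) ≤ Real.pi := by
    rw [div_le_iff₀ hs0]
    nlinarith [Real.pi_gt_three]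
  refine cr n hn1 m hτ (θ0 := 1.6 / Real.sqrt (V n τ)) (by positivity) hθ0 hμ ?_
  refine GLmain (fun θ => Real.exp (-(E n τ θ))) (g_cont n τ) (fun θ => (Real.exp_pos _).le) n hn
    (V n τ) τ _ _ _ hV hτ ?_ ?_ ?_ ?_ ?_ ?_ ?_ hf
  · intro θ h0 h1
    exact zone_a hn1 hτ hV0.le h0 h1
  · intro θ h0 h1
    have hθ : 0 ≤ θ := le_trans (by positivity) h0
    rw [div_le_iff₀ (by positivity)] at h0
    rw [le_div_iff₀ (by positivity)] at h1
    exact zone_half hn1 hτ hV0.le (by linarith) (by linarith) hθ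
  · intro θ h0 h1
    have hθ : 0 ≤ θ := le_trans (by positivity) h0
    rw [div_le_iff₀ (by positivity)] at h0
    rw [le_div_iff₀ (by positivity)] at h1
    exact zone_34 hn1 hτ hV0.le (by linarith) (by linarith) hθ
  · intro θ h0 h1
    have hθ : 0 ≤ θ := le_trans (by positivity) h0
    rw [div_le_iff₀ (by positivity)] at h0
    rw [le_div_iff₀ (by positivity)] at h1
    exact zone_half hn1 hτ hV0.le (by linarith) (by linarith) hθ
  · intro θ h0 h1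
    rw [div_le_iff₀ (by positivity)] at h0
    rw [le_div_iff₀ (by positivity)] at h1
    exact Real.exp_le_exp.mpr (neg_le_neg (h4 θ (by linarith) (by linarith)))
  · intro θ h0 h1
    rw [div_le_iff₀ (by positivity)] at h0
    rw [le_div_iff₀ (by positivity)] at h1
    exact Real.exp_le_exp.mpr (neg_le_neg (h5 θ (by linarith) (by linarith)))
  · intro θ h0 h1
    rw [div_le_iff₀ (by positivity)] at h0
    exact Real.exp_le_exp.mpr (neg_le_neg (h6 θ (by linarith) h1))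

/-! ### E on the far zones -/

/-- `E` at `1/(2n)` with the transfer loss -/
theorem Z05pre (n : ℕ) (hn : 150 ≤ n) (θ : ℝ) :
    S1 n (1 / (2 * n)) θ + S1 n (1 / n) (2 * θ) / 2 - 1.3035 * n
      ≤ E n (1 / (2 * n)) θ - S2 n * (1 / (2 * (n : ℝ))) ^ 2 / 24 := by
  have hn' := nge hn
  have hnp : (0 : ℝ) < n := by linarith
  have h2 := EXP2 n (τ := 1 / (2 * n)) (by positivity) θ
  have h3 := Ab05 n hn
  have e : 2 * (1 / (2 * (n : ℝ))) = 1 / n := by field_simp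
  rw [e] at h2
  have h4 : S2 n * (1 / (2 * (n : ℝ))) ^ 2 / 24 ≤ 0.6049 * n := by
    unfold S2
    have : (58 * (n : ℝ) ^ 3 + 10 * (n : ℝ) ^ 2) * (1 / (2 * n)) ^ 2 / 24 = (58 * n + 10) / 96 := by
      field_simp; ring
    rw [this]; linarith
  linarith

/-- `τ ≤ 1/(2n)`, transfer from `1/(2n)` -/
theorem Z05 (n : ℕ) (hn : 150 ≤ n) {τ : ℝ} (hτ : 0 < τ) (h : n * τ ≤ 1 / 2) {θ : ℝ} :
    S1 n (1 / (2 * n)) θ + S1 n (1 / n) (2 * θ) / 2 - 1.3035 * n ≤ E n τ θ := by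
  have hn' := nge hn
  have hnp : (0 : ℝ) < n := by linarith
  have hτ1 : τ ≤ 1 / (2 * n) := by
    rw [le_div_iff₀ (by positivity)]; linarith
  exact le_trans (Z05pre n hn θ) (tr n (by omega) hτ hτ1 θ)

theorem Z05a (n : ℕ) (hn : 150 ≤ n) {τ : ℝ} (hτ : 0 < τ) (h : n * τ ≤ 1 / 2) {θ : ℝ}
    (h0 : 2 ≤ n * θ) (h1 : n * θ ≤ 4) : 0.11 * n ≤ E n τ θ := by
  have hn' := nge hn
  have h2 := Z05 n hn hτ h (θ := θ)
  have h3 := X05a n hn h0 h1
  linarith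

theorem Z05b (n : ℕ) (hn : 150 ≤ n) {τ : ℝ} (hτ : 0 < τ) (h : n * τ ≤ 1 / 2) {θ : ℝ}
    (h0 : 4 ≤ n * θ) (h1 : θ ≤ Real.pi) : 0.28 * n ≤ E n τ θ := by
  have hn' := nge hn
  have h2 := Z05 n hn hτ h (θ := θ)
  have h3 := X05b n hn h0 h1
  linarith

/-- regime 1: `nτ ≤ 1/2` -/
theorem R1 (n : ℕ) (hn : 150 ≤ n) (m : ℕ) {τ : ℝ} (hτ : 0 < τ) (h : n * τ ≤ 1 / 2)
    (hμ : mu n τ = ((m + 1 : ℕ) : ℝ)) (hw : 2.33 ≤ τ * Real.sqrt (V n τ)) :
    a n m < a n (m + 1) := by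
  have hn' := nge hn
  have hnp : (0 : ℝ) < n := by linarith
  have hV1 : 3.277 * (n : ℝ) ^ 3 ≤ V n τ := by
    refine le_trans ?_ (V_ge n hτ)
    have ht : (n * τ) ^ 2 ≤ 1 / 4 := by nlinarith [mul_pos hnp hτ]
    unfold S2 S4
    have e : τ ^ 2 * (1494 * (n : ℝ) ^ 5 + 592 * (n : ℝ) ^ 4 + 58 * (n : ℝ) ^ 3)
        = (n * τ) ^ 2 * (1494 * (n : ℝ) ^ 3 + 592 * (n : ℝ) ^ 2 + 58 * (n : ℝ)) := by ring
    rw [e]
    have h2 : (n * τ) ^ 2 * (1494 * (n : ℝ) ^ 3 + 592 * (n : ℝ) ^ 2 + 58 * (n : ℝ))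
        ≤ 1 / 4 * (1494 * (n : ℝ) ^ 3 + 592 * (n : ℝ) ^ 2 + 58 * (n : ℝ)) := by gcongr
    nlinarith [sq_nonneg (n : ℝ), mul_nonneg (sq_nonneg (n : ℝ)) (sub_nonneg.mpr hn'),
      mul_nonneg hnp.le (sub_nonneg.mpr hn')]
  have hV40 : 40 * (n : ℝ) ^ 2 ≤ V n τ := by
    refine le_trans ?_ hV1
    nlinarith [sq_nonneg (n : ℝ), mul_nonneg (sq_nonneg (n : ℝ)) (sub_nonneg.mpr hn')]
  refine cr_of_hfin n hn m hτ hV40 hμ (c4 := 0.29) (c5 := 0.11) (c6 := 0.28) ?_ ?_ ?_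
    (chk1 n hn (V n τ) τ hV1 (V_up_basic n hn hτ) hw)
  · intro θ h0 h1
    exact ELL_half n hn hτ h h0 (by linarith [Real.pi_lt_four])
  · intro θ h0 h1
    rcases le_total (n * θ) 2 with h2 | h2
    · have := ELL_half n hn hτ h (by linarith [Real.pi_pos]) h2
      linarith
    · exact Z05a n hn hτ h h2 h1
  · intro θ h0 h1
    exact Z05b n hn hτ h h0 h1

/-- `E ≥ S1(τ2, θ) - Ab(τ1)` for `τ1 ≤ τ ≤ τ2` -/
theorem E_ge_S1 (n : ℕ) {τ τ1 τ2 : ℝ} (h1 : 0 < τ1) (h2 : τ1 ≤ τ) (h3 : τ ≤ τ2) (θ : ℝ) :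
    S1 n τ2 θ - Ab n τ1 ≤ E n τ θ := by
  have a1 := EXP1 n (lt_of_lt_of_le h1 h2) θ
  have a2 := S1_anti n h3 θ
  have a3 := Ab_anti n h1 h2
  linarith

theorem E_ge_S12 (n : ℕ) {τ τ1 τ2 : ℝ} (h1 : 0 < τ1) (h2 : τ1 ≤ τ) (h3 : τ ≤ τ2) (θ : ℝ) :
    S1 n τ2 θ + S1 n (2 * τ2) (2 * θ) / 2 - Ab n τ1 ≤ E n τ θ := by
  have a1 := EXP2 n (lt_of_lt_of_le h1 h2) θ
  have a2 := S1_anti n h3 θ
  have a3 := Ab_anti n h1 h2
  have a4 := S1_anti n (show 2 * τ ≤ 2 * τ2 by linarith) (2 * θ)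
  linarith

/-- far zones for `1/2 ≤ nτ ≤ 3/2` -/
theorem Z2far (n : ℕ) (hn : 150 ≤ n) {τ : ℝ} (h : 1 / 2 ≤ n * τ)
    (h' : n * τ ≤ 3 / 2) {θ : ℝ} (h0 : 2 ≤ n * θ) (h1 : θ ≤ Real.pi) : 0.27 * n ≤ E n τ θ := by
  have hn' := nge hn
  have hnp : (0 : ℝ) < n := by linarith
  rcases le_total (n * τ) (3 / 4) with h2 | h2
  · have a1 := E_ge_S12 n (τ := τ) (τ1 := 1 / (2 * n)) (τ2 := 3 / (4 * n)) (by positivity)
      (by rw [div_le_iff₀ (by positivity)]; linarith) (by rw [le_div_iff₀ (by positivity)]; linarith) θ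
    have e : 2 * (3 / (4 * (n : ℝ))) = 3 / (2 * n) := by field_simp; ring
    rw [e] at a1
    have a2 := X075 n hn h0 h1
    have a3 := Ab05 n hn
    linarith
  · rcases le_total (n * τ) 1 with h3 | h3
    · have a1 := E_ge_S1 n (τ := τ) (τ1 := 3 / (4 * n)) (τ2 := 1 / n) (by positivity)
        (by rw [div_le_iff₀ (by positivity)]; linarith) (by rw [le_div_iff₀ (by positivity)]; linarith) θ
      have a2 := X1 n hn h0 h1
      have a3 := Ab075 n hn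
      linarith
    · have a1 := E_ge_S1 n (τ := τ) (τ1 := 1 / n) (τ2 := 3 / (2 * n)) (by positivity)
        (by rw [div_le_iff₀ (by positivity)]; linarith) (by rw [le_div_iff₀ (by positivity)]; linarith) θ
      have a2 := X15b n hn (by linarith [Real.pi_lt_four]) h1
      have a3 := Ab1 n hn
      linarith

/-- regime 2: `1/2 ≤ nτ ≤ 3/2` -/
theorem R2 (n : ℕ) (hn : 150 ≤ n) (m : ℕ) {τ : ℝ} (hτ : 0 < τ) (h : 1 / 2 ≤ n * τ)
    (h' : n * τ ≤ 3 / 2) (hμ : mu n τ = ((m + 1 : ℕ) : ℝ)) : a n m < a n (m + 1) := by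
  have hn' := nge hn
  have hnp : (0 : ℝ) < n := by linarith
  have hV1 : 0.89 * (n : ℝ) ^ 3 ≤ V n τ :=
    le_trans (V15 n hn) (V_anti n hτ (by rw [le_div_iff₀ (by positivity)]; linarith))
  have hV40 : 40 * (n : ℝ) ^ 2 ≤ V n τ := by
    refine le_trans ?_ hV1
    nlinarith [sq_nonneg (n : ℝ), mul_nonneg (sq_nonneg (n : ℝ)) (sub_nonneg.mpr hn')]
  refine cr_of_hfin n hn m hτ hV40 hμ (c4 := 0.063) (c5 := 0.09) (c6 := 0.27) ?_ ?_ ?_
    (chk2 n hn (V n τ) τ hV1 (V_up_basic n hn hτ)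
      (by rw [div_le_iff₀ (by positivity)]; linarith))
  · intro θ h0 h1
    rcases le_total (n * τ) 1 with h3 | h3
    · have := ELL_one n hn hτ h3 h0 (by linarith [Real.pi_lt_four])
      linarith
    · have a1 := E_ge_S1 n (τ := τ) (τ1 := 1 / n) (τ2 := 3 / (2 * n)) (by positivity)
        (by rw [div_le_iff₀ (by positivity)]; linarith) (by rw [le_div_iff₀ (by positivity)]; linarith) θ
      have a2 := X15a n hn h0 h1
      have a3 := Ab1 n hn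
      linarith
  · intro θ h0 h1
    have hθ : θ ≤ Real.pi := by
      by_contra hc
      push Not at hc
      nlinarith [Real.pi_gt_three]
    rcases le_total (n * θ) 2 with h2 | h2
    · rcases le_total (n * τ) 1 with h3 | h3
      · exact ELL_one n hn hτ h3 (by linarith [Real.pi_pos]) h2
      · have a1 := E_ge_S1 n (τ := τ) (τ1 := 1 / n) (τ2 := 3 / (2 * n)) (by positivity)
          (by rw [div_le_iff₀ (by positivity)]; linarith) (by rw [le_div_iff₀ (by positivity)]; linarith) θ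
        have a2 := X15b n hn h0 hθ
        have a3 := Ab1 n hn
        linarith
    · have := Z2far n hn h h' h2 hθ
      linarith
  · intro θ h0 h1
    exact Z2far n hn h h' (by linarith) h1

/-- regime 3: `3/2 ≤ nτ ≤ 2` -/
theorem R3 (n : ℕ) (hn : 150 ≤ n) (m : ℕ) {τ : ℝ} (hτ : 0 < τ) (h : 3 / 2 ≤ n * τ)
    (h' : n * τ ≤ 2) (hμ : mu n τ = ((m + 1 : ℕ) : ℝ)) : a n m < a n (m + 1) := by
  have hn' := nge hn
  have hnp : (0 : ℝ) < n := by linarith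
  have hV1 : 0.45 * (n : ℝ) ^ 3 ≤ V n τ :=
    le_trans (V2 n hn) (V_anti n hτ (by rw [le_div_iff₀ (by positivity)]; linarith))
  have hV40 : 40 * (n : ℝ) ^ 2 ≤ V n τ := by
    refine le_trans ?_ hV1
    nlinarith [sq_nonneg (n : ℝ), mul_nonneg (sq_nonneg (n : ℝ)) (sub_nonneg.mpr hn')]
  have hfar : ∀ θ : ℝ, Real.pi / 2 ≤ n * θ → θ ≤ Real.pi → 0.2 * n ≤ E n τ θ := by
    intro θ h0 h1
    have a1 := E_ge_S1 n (τ := τ) (τ1 := 3 / (2 * n)) (τ2 := 2 / n) (by positivity)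
      (by rw [div_le_iff₀ (by positivity)]; linarith) (by rw [le_div_iff₀ (by positivity)]; linarith) θ
    have a2 := X2b n hn h0 h1
    have a3 := Ab15 n hn
    linarith
  refine cr_of_hfin n hn m hτ hV40 hμ (c4 := 0.069) (c5 := 0.2) (c6 := 0.2) ?_ ?_ ?_
    (chk3 n hn (V n τ) τ hV1 (V_up_basic n hn hτ)
      (by rw [div_le_iff₀ (by positivity)]; linarith))
  · intro θ h0 h1
    have a1 := E_ge_S1 n (τ := τ) (τ1 := 3 / (2 * n)) (τ2 := 2 / n) (by positivity)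
      (by rw [div_le_iff₀ (by positivity)]; linarith) (by rw [le_div_iff₀ (by positivity)]; linarith) θ
    have a2 := X2a n hn h0 h1
    have a3 := Ab15 n hn
    linarith
  · intro θ h0 h1
    refine hfar θ h0 ?_
    by_contra hc
    push Not at hc
    nlinarith [Real.pi_gt_three]
  · intro θ h0 h1
    exact hfar θ (by linarith [Real.pi_lt_four]) h1

/-! ### regimes with `nτ ≥ 2` -/

theorem Pr_pos' (n : ℕ) {r : ℝ} (hr : 0 ≤ r) : 0 < Pr n r := by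
  unfold Pr
  refine lt_of_lt_of_le (show (0:ℝ) < (a n 0 : ℝ) * r ^ 0 by rw [a_zero]; norm_num) ?_
  exact single_le_sum (f := fun k => (a n k : ℝ) * r ^ k)
    (fun k _ => mul_nonneg (Nat.cast_nonneg _) (pow_nonneg hr k)) (mem_range.mpr (by positivity))

theorem V_nonneg (n : ℕ) (hn : 1 ≤ n) {τ : ℝ} (hτ : 0 < τ) : 0 ≤ V n τ := by
  have h := var_eq n hn hτ
  have hp := Pr_pos' n (Real.exp_pos (-τ)).le
  have h0 : 0 ≤ V n τ * Pr n (Real.exp (-τ)) := by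
    rw [← h]
    apply sum_nonneg
    intro k _
    have := Real.exp_pos (-τ)
    positivity
  by_contra hc
  push Not at hc
  nlinarith

theorem theta0_le {τ c : ℝ} (hτ : 0 < τ) (h : τ ≤ 1) (hc : c ≤ 1) :
    c * (τ * Real.sqrt τ) ≤ Real.pi := by
  have h1 : Real.sqrt τ ≤ 1 := Real.sqrt_le_one.mpr h
  have h2 : τ * Real.sqrt τ ≤ 1 := by
    have := Real.sqrt_nonneg τ
    nlinarith
  have h3 : 0 ≤ τ * Real.sqrt τ := by positivity
  nlinarith [Real.pi_gt_three]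

/-- regime 4: `2 ≤ nτ ≤ 4` -/
theorem R4 (n : ℕ) (hn : 150 ≤ n) (m : ℕ) {τ : ℝ} (hτ : 0 < τ) (h : 2 ≤ n * τ)
    (h' : n * τ ≤ 4) (hμ : mu n τ = ((m + 1 : ℕ) : ℝ)) : a n m < a n (m + 1) := by
  have hn' := nge hn
  have hnp : (0 : ℝ) < n := by linarith
  have hτ4 : τ ≤ 4 / 150 := by
    rw [le_div_iff₀ (by norm_num)]
    nlinarith
  have hτ1 : τ ≤ 0.0613 := by linarith
  refine cr n (by omega) m hτ (θ0 := 0.8 * (τ * Real.sqrt τ)) (by positivity)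
    (theta0_le hτ (by linarith) (by norm_num)) hμ ?_
  refine GL5a (fun θ => Real.exp (-(E n τ θ))) (g_cont n τ) (fun θ => (Real.exp_pos _).le)
    (V n τ) τ hτ hτ4 (V_nonneg n (by omega) hτ) (V_up2 n hτ h) ?_ ?_ ?_ ?_ ?_
  · intro θ h0 h1
    refine Real.exp_le_exp.mpr (neg_le_neg ?_)
    have h2 : n * θ ≤ Real.pi / 2 := by
      have : n * θ ≤ 0.39 * (n * τ) := by nlinarith
      have := Real.pi_gt_d2
      nlinarith
    have a1 := Qa n hτ h h0 h2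
    have a2 := T1_small hτ hτ1 h0 h1
    have a3 : 1.018 * θ ^ 2 / τ ^ 3 + 0.0658 * θ ^ 2 / τ ^ 3 ≤ 1.084 * θ ^ 2 / τ ^ 3 := by
      rw [← add_div]
      apply div_le_div_of_nonneg_right _ (by positivity)
      nlinarith [sq_nonneg θ]
    linarith
  · intro θ h0 h1
    refine Real.exp_le_exp.mpr (neg_le_neg ?_)
    have a1 := Qb n hτ h θ
    have a2 := T1_39 hτ hτ1 h0 (by linarith)
    have a3 : 0.122 / τ + 0.0425 / τ ≤ 0.1645 / τ := by
      rw [← add_div]; apply div_le_div_of_nonneg_right _ hτ.le; norm_num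
    linarith
  · intro θ h0 h1
    refine Real.exp_le_exp.mpr (neg_le_neg ?_)
    have a1 := Qb n hτ h θ
    have a2 := T1_55 hτ hτ1 h0 (by linarith)
    have a3 : 0.247 / τ + 0.0425 / τ ≤ 0.2895 / τ := by
      rw [← add_div]; apply div_le_div_of_nonneg_right _ hτ.le; norm_num
    linarith
  · intro θ h0 h1
    refine Real.exp_le_exp.mpr (neg_le_neg ?_)
    have a1 := Qb n hτ h θ
    have a2 := T1_90 hτ hτ1 h0 h1
    have a3 : 0.515 / τ + 0.0425 / τ ≤ 0.558 / τ := by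
      rw [← add_div]; apply div_le_div_of_nonneg_right _ hτ.le; norm_num
    linarith
  · intro θ h0 h1
    refine Real.exp_le_exp.mpr (neg_le_neg ?_)
    have a1 := Qb n hτ h θ
    have a2 := T1_500 hτ hτ1 h0 h1
    have a3 : 0.9 / τ + 0.0425 / τ ≤ 0.95 / τ := by
      rw [← add_div]; apply div_le_div_of_nonneg_right _ hτ.le; norm_num
    linarith

/-- regime 5: `4 ≤ nτ`, `τ ≤ 0.0613` -/
theorem R5 (n : ℕ) (hn : 150 ≤ n) (m : ℕ) {τ : ℝ} (hτ : 0 < τ) (h : 4 ≤ n * τ)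
    (hτ1 : τ ≤ 0.0613) (hμ : mu n τ = ((m + 1 : ℕ) : ℝ)) : a n m < a n (m + 1) := by
  have hn' := nge hn
  refine cr n (by omega) m hτ (θ0 := 0.85 * (τ * Real.sqrt τ)) (by positivity)
    (theta0_le hτ (by linarith) (by norm_num)) hμ ?_
  refine GL5b (fun θ => Real.exp (-(E n τ θ))) (g_cont n τ) (fun θ => (Real.exp_pos _).le)
    (V n τ) τ hτ hτ1 (V_nonneg n (by omega) hτ) (V_up4 n hτ h) ?_ ?_ ?_ ?_ ?_
  · intro θ h0 h1
    refine Real.exp_le_exp.mpr (neg_le_neg ?_)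
    have a1 := Qc n hτ h θ
    have a2 := T1_small hτ hτ1 h0 h1
    have a3 : 1.069 * θ ^ 2 / τ ^ 3 + 0.0143 * θ ^ 2 / τ ^ 3 ≤ 1.084 * θ ^ 2 / τ ^ 3 := by
      rw [← add_div]
      apply div_le_div_of_nonneg_right _ (by positivity)
      nlinarith [sq_nonneg θ]
    linarith
  · intro θ h0 h1
    refine Real.exp_le_exp.mpr (neg_le_neg ?_)
    have a1 := Qd n hτ h θ
    have a2 := T1_39 hτ hτ1 h0 (by linarith)
    have a3 : 0.1635 / τ + 0.0007 / τ ≤ 0.1645 / τ := by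
      rw [← add_div]; apply div_le_div_of_nonneg_right _ hτ.le; norm_num
    linarith
  · intro θ h0 h1
    refine Real.exp_le_exp.mpr (neg_le_neg ?_)
    have a1 := Qd n hτ h θ
    have a2 := T1_55 hτ hτ1 h0 (by linarith)
    have a3 : 0.2885 / τ + 0.0007 / τ ≤ 0.2895 / τ := by
      rw [← add_div]; apply div_le_div_of_nonneg_right _ hτ.le; norm_num
    linarith
  · intro θ h0 h1
    refine Real.exp_le_exp.mpr (neg_le_neg ?_)
    have a1 := Qd n hτ h θ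
    have a2 := T1_90 hτ hτ1 h0 h1
    have a3 : 0.557 / τ + 0.0007 / τ ≤ 0.558 / τ := by
      rw [← add_div]; apply div_le_div_of_nonneg_right _ hτ.le; norm_num
    linarith
  · intro θ h0 h1
    refine Real.exp_le_exp.mpr (neg_le_neg ?_)
    have a1 := Qd n hτ h θ
    have a2 := T1_500 hτ hτ1 h0 h1
    have a3 : 0.949 / τ + 0.0007 / τ ≤ 0.95 / τ := by
      rw [← add_div]; apply div_le_div_of_nonneg_right _ hτ.le; norm_num
    linarith

/-! ### Part A -/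

theorem ELL_fifth (n : ℕ) (hn : 150 ≤ n) {θ : ℝ} (h0 : Real.pi / 4 ≤ n * θ) (h1 : n * θ ≤ 2) :
    0.3 * n ≤ E n (1 / (5 * n)) θ - S2 n * (1 / (5 * (n : ℝ))) ^ 2 / 24 := by
  have hn' := nge hn
  have hnp : (0 : ℝ) < n := by linarith
  have hE := E_ELL n (τ := 1 / (5 * n)) (by omega) (by positivity) h0 h1
  have e : 3 * (n : ℝ) * (1 / (5 * n)) / 2 = 3 / 10 := by field_simp; norm_num
  rw [e] at hE
  have hc : Real.cosh (3 / 10) ≤ Real.exp ((3 / 10) ^ 2 / 2) := Real.cosh_le_exp_half_sq _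
  have hc2 : Real.cosh (3 / 10) ^ 2 ≤ 1.1 := by
    have hp := Real.cosh_pos (3 / 10)
    calc Real.cosh (3 / 10) ^ 2 ≤ Real.exp ((3 / 10) ^ 2 / 2) ^ 2 := by gcongr
      _ = Real.exp 0.09 := by rw [← Real.exp_nat_mul]; norm_num
      _ ≤ 1.1 := by
        have := Real.exp_bound' (x := 0.09) (by norm_num) (by norm_num) (n := 3) (by norm_num)
        refine le_trans this ?_
        norm_num [Finset.sum_range_succ, Nat.factorial]
  have h4 : S2 n * (1 / (5 * (n : ℝ))) ^ 2 / 24 ≤ 0.0968 * n := by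
    unfold S2
    have : (58 * (n : ℝ) ^ 3 + 10 * (n : ℝ) ^ 2) * (1 / (5 * n)) ^ 2 / 24 = (58 * n + 10) / 600 := by
      field_simp; ring
    rw [this]; linarith
  have h5 : 0.45 * n ≤ n / (2 * Real.cosh (3 / 10) ^ 2) := by
    have hp := Real.cosh_pos (3 / 10)
    rw [le_div_iff₀ (by positivity)]
    nlinarith
  linarith

theorem Qf_cont (n : ℕ) : Continuous (Qf n) := by
  unfold Qf
  fun_prop

theorem partA (n : ℕ) (hn : 150 ≤ n) (m : ℕ) (hm : m + 1 ≤ 5 * n ^ 2)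
    (hx : (5 * (n : ℝ) ^ 2 - m - 1 / 2) ^ 2 ≤ 5.76 * (S2 n / 12)) : a n m < a n (m + 1) := by
  have hn' := nge hn
  have hnp : (0 : ℝ) < n := by linarith
  have hP := Pr_pos' n (r := 1) (by norm_num)
  have hx0 : 1 / 2 ≤ 5 * (n : ℝ) ^ 2 - m - 1 / 2 := by
    have : ((m + 1 : ℕ) : ℝ) ≤ ((5 * n ^ 2 : ℕ) : ℝ) := by exact_mod_cast hm
    push_cast at this
    linarith
  have hq := Qf_cont n
  have key := partA_analysis n hn (fun θ => Qf n θ / Pr n 1) (by fun_prop)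
    (5 * (n : ℝ) ^ 2 - m - 1 / 2) hx0 hx ?_ ?_ ?_ ?_ ?_
  · have hd := diff_formula n m hm
    have e : ∫ θ in (0:ℝ)..Real.pi, Qf n θ / Pr n 1
          * (2 * Real.sin ((5 * (n : ℝ) ^ 2 - m - 1 / 2) * θ) * Real.sin (θ / 2))
        = (∫ θ in (0:ℝ)..Real.pi, Qf n θ
          * (2 * Real.sin ((5 * (n : ℝ) ^ 2 - m - 1 / 2) * θ) * Real.sin (θ / 2))) / Pr n 1 := by
      rw [← intervalIntegral.integral_div]
      congr 1; ext θ; ring
    rw [e, ← hd] at key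
    have h1 : 0 < ((a n (m + 1) : ℝ) - a n m) * Real.pi := by
      by_contra hc
      push Not at hc
      have := div_nonpos_of_nonpos_of_nonneg hc hP.le
      linarith
    have h2 : 0 < (a n (m + 1) : ℝ) - a n m := by
      by_contra hc
      push Not at hc
      nlinarith [Real.pi_pos]
    have h3 : (a n m : ℝ) < a n (m + 1) := by linarith
    exact_mod_cast h3
  · intro θ h0 h1
    have := Qf_lower n (by omega) h0 h1
    rw [le_div_iff₀ hP]; linarith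
  · intro θ h0 h1
    have := Qf_upper n (θ := θ) (by omega) h0 (by linarith [Real.pi_pos])
    rw [abs_of_nonneg (div_nonneg this.1 hP.le), div_le_iff₀ hP]
    linarith [this.2]
  · intro θ h0 h1
    have t := tr0 n (by omega) (τ1 := 1 / (5 * n)) (by positivity) θ
    have l := ELL_fifth n hn h0 h1
    rw [abs_div, abs_of_pos hP, div_le_iff₀ hP]
    refine le_trans t ?_
    rw [mul_comm]
    exact mul_le_mul_of_nonneg_right (Real.exp_le_exp.mpr (neg_le_neg l)) hP.le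
  · intro θ h0 h1
    have t := tr0 n (by omega) (τ1 := 1 / (2 * n)) (by positivity) θ
    have l := Z05pre n hn θ
    have x := X05a n hn h0 h1
    rw [abs_div, abs_of_pos hP, div_le_iff₀ hP]
    refine le_trans t ?_
    rw [mul_comm]
    exact mul_le_mul_of_nonneg_right (Real.exp_le_exp.mpr (neg_le_neg (by linarith))) hP.le
  · intro θ h0 h1
    have t := tr0 n (by omega) (τ1 := 1 / (2 * n)) (by positivity) θ
    have l := Z05pre n hn θ
    have x := X05b n hn h0 h1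
    rw [abs_div, abs_of_pos hP, div_le_iff₀ hP]
    refine le_trans t ?_
    rw [mul_comm]
    exact mul_le_mul_of_nonneg_right (Real.exp_le_exp.mpr (neg_le_neg (by linarith))) hP.le

/-! ### all `n ≥ 150` -/

theorem r1_V_small {n : ℕ} (hn : 150 ≤ n) {τ : ℝ} (hτ : 0 < τ) (h : n * τ ≤ 1 / 5) :
    0.946 * (S2 n / 12) ≤ V n τ := by
  have hn' := nge hn
  have hnp : (0 : ℝ) < n := by linarith
  have hg := V_ge n hτ
  have e : τ ^ 2 * S4 n = (n * τ) ^ 2 * (1494 * (n : ℝ) ^ 3 + 592 * (n : ℝ) ^ 2 + 58 * (n : ℝ)) := by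
    unfold S4; ring
  rw [e] at hg
  have hB := cube_fact hn'
  have hSlow : 4.8333 * (n : ℝ) ^ 3 ≤ S2 n / 12 := by
    unfold S2; linarith [pow_pos hnp 2, pow_pos hnp 3]
  have ht0 : 0 < n * τ := mul_pos hnp hτ
  have ht : (n * τ) ^ 2 ≤ 1 / 25 := by nlinarith
  have h1 : (n * τ) ^ 2 * (1494 * (n : ℝ) ^ 3 + 592 * (n : ℝ) ^ 2 + 58 * (n : ℝ))
      ≤ 1 / 25 * (1498 * (n : ℝ) ^ 3) := by gcongr
  have hn3 := pow_pos hnp 3
  linarith

theorem r1_V_mid {n : ℕ} (hn : 150 ≤ n) {τ : ℝ} (hτ : 0 < τ) (h : n * τ ≤ 1 / 2) :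
    3 * (n : ℝ) ^ 3 ≤ V n τ := by
  have hn' := nge hn
  have hnp : (0 : ℝ) < n := by linarith
  have hg := V_ge n hτ
  have e : τ ^ 2 * S4 n = (n * τ) ^ 2 * (1494 * (n : ℝ) ^ 3 + 592 * (n : ℝ) ^ 2 + 58 * (n : ℝ)) := by
    unfold S4; ring
  rw [e] at hg
  have hB := cube_fact hn'
  have hSlow : 4.8333 * (n : ℝ) ^ 3 ≤ S2 n / 12 := by
    unfold S2; linarith [pow_pos hnp 2, pow_pos hnp 3]
  have ht0 : 0 < n * τ := mul_pos hnp hτ
  have ht : (n * τ) ^ 2 ≤ 1 / 4 := by nlinarith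
  have h1 : (n * τ) ^ 2 * (1494 * (n : ℝ) ^ 3 + 592 * (n : ℝ) ^ 2 + 58 * (n : ℝ))
      ≤ 1 / 4 * (1498 * (n : ℝ) ^ 3) := by gcongr
  have hn3 := pow_pos hnp 3
  linarith

theorem r1_cond (n : ℕ) (hn : 150 ≤ n) {τ σ : ℝ} (hτ : 0 < τ) (c1 : n * τ ≤ 1 / 2)
    (hσ : σ ^ 2 = S2 n / 12) (hτσ : 2.3998 ≤ τ * σ) : 2.33 ≤ τ * Real.sqrt (V n τ) := by
  have hn' := nge hn
  have hnp : (0 : ℝ) < n := by linarith
  have hVnn := V_nonneg n (by omega) hτ
  have key : 2.33 ^ 2 ≤ (τ * Real.sqrt (V n τ)) ^ 2 := by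
    rw [mul_pow, Real.sq_sqrt hVnn]
    rcases le_total (n * τ) (1 / 5) with c2 | c2
    · have hV := r1_V_small hn hτ c2
      rw [← hσ] at hV
      have h2 : 2.3998 ^ 2 ≤ τ ^ 2 * σ ^ 2 := by
        rw [← mul_pow]; gcongr
      have h3 : τ ^ 2 * (0.946 * σ ^ 2) ≤ τ ^ 2 * V n τ := by gcongr
      have h4 : τ ^ 2 * (0.946 * σ ^ 2) = 0.946 * (τ ^ 2 * σ ^ 2) := by ring
      rw [h4] at h3
      norm_num at h2 h3 ⊢
      linarith
    · have hV := r1_V_mid hn hτ c1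
      have h3 : τ ^ 2 * (3 * (n : ℝ) ^ 3) ≤ τ ^ 2 * V n τ := by gcongr
      have h5 : τ ^ 2 * (3 * (n : ℝ) ^ 3) = 3 * n * (n * τ) ^ 2 := by ring
      rw [h5] at h3
      have h6 : 3 * (n : ℝ) * (1 / 5 : ℝ) ^ 2 ≤ 3 * n * (n * τ) ^ 2 := by gcongr
      norm_num at h6 ⊢
      linarith
  have hnn : 0 ≤ τ * Real.sqrt (V n τ) := by positivity
  exact (pow_le_pow_iff_left₀ (by norm_num) hnn (by norm_num)).mp key

theorem big_n (n : ℕ) (hn : 150 ≤ n) (m : ℕ) (hm : m + 1 ≤ 5 * n ^ 2) : a n m ≤ a n (m + 1) := by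
  have hn' := nge hn
  have hnp : (0 : ℝ) < n := by linarith
  rcases Nat.lt_or_ge (3 * n) (m + 1) with h3 | h3
  swap
  · exact triv_range n (by omega) m h3
  rcases le_or_gt ((5 * (n : ℝ) ^ 2 - m - 1 / 2) ^ 2) (5.76 * (S2 n / 12)) with hx | hx
  · exact (partA n hn m hm hx).le
  apply le_of_lt
  -- σ² = S2/12
  obtain ⟨σ, hσ0, hσ⟩ : ∃ σ : ℝ, 0 < σ ∧ σ ^ 2 = S2 n / 12 := by
    refine ⟨Real.sqrt (S2 n / 12), Real.sqrt_pos.mpr ?_, Real.sq_sqrt ?_⟩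
    · unfold S2; positivity
    · unfold S2; positivity
  have hσlow : 2800 ≤ σ := by
    have : (2800 : ℝ) ^ 2 ≤ σ ^ 2 := by
      rw [hσ]; unfold S2
      have h1 : (150 : ℝ) ^ 3 ≤ (n : ℝ) ^ 3 := by gcongr
      have h2 : 0 ≤ (n : ℝ) ^ 2 := by positivity
      nlinarith
    exact (pow_le_pow_iff_left₀ (by norm_num) hσ0.le (by norm_num)).mp this
  have hm5 : ((m + 1 : ℕ) : ℝ) ≤ 5 * (n : ℝ) ^ 2 := by
    have : ((m + 1 : ℕ) : ℝ) ≤ ((5 * n ^ 2 : ℕ) : ℝ) := by exact_mod_cast hm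
    push_cast at this ⊢
    linarith
  have hxpos : 0 ≤ 5 * (n : ℝ) ^ 2 - m - 1 / 2 := by
    push_cast at hm5; linarith
  have hx2 : 2.4 * σ < 5 * (n : ℝ) ^ 2 - m - 1 / 2 := by
    have : (2.4 * σ) ^ 2 < (5 * (n : ℝ) ^ 2 - m - 1 / 2) ^ 2 := by
      rw [mul_pow, hσ]; norm_num at hx ⊢; linarith
    exact (pow_lt_pow_iff_left₀ (by positivity) hxpos (by norm_num)).mp this
  have hsq : 0 < Real.sqrt n := Real.sqrt_pos.mpr hnp
  obtain ⟨τ, hτ, hτ2, hμ, hlow⟩ := exists_tau n (by omega) ((m + 1 : ℕ) : ℝ)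
    (τ2 := 3 / (4 * Real.sqrt n)) (by positivity)
    (le_trans (mu_le n hn) (by
      have : ((3 * n : ℕ) : ℝ) ≤ ((m + 1 : ℕ) : ℝ) := by exact_mod_cast h3.le
      push_cast at this ⊢; linarith))
    (by push_cast; linarith)
  have hτσ : 2.3998 ≤ τ * σ := by
    rw [← hσ] at hlow
    push_cast at hlow
    have : (2.3998 - τ * σ) * σ ≤ 0 := by nlinarith
    by_contra hc
    push Not at hc
    nlinarith
  have hτ1 : τ ≤ 0.0613 := by
    refine le_trans hτ2 ?_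
    rw [div_le_iff₀ (by positivity)]
    have : 12.24 ≤ Real.sqrt n := by
      apply Real.le_sqrt_of_sq_le
      linarith
    linarith
  rcases le_total (n * τ) (1 / 2) with c1 | c1
  · exact R1 n hn m hτ c1 hμ (r1_cond n hn hτ c1 hσ hτσ)
  rcases le_total (n * τ) (3 / 2) with c2 | c2
  · exact R2 n hn m hτ c1 c2 hμ
  rcases le_total (n * τ) 2 with c3 | c3
  · exact R3 n hn m hτ c2 c3 hμ
  rcases le_total (n * τ) 4 with c4 | c4
  · exact R4 n hn m hτ c3 c4 hμ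
  · exact R5 n hn m hτ c4 hτ1 hμ

/-- monotonicity up to the middle for all `n ≥ 2` -/
theorem all_n (n : ℕ) (hn : 2 ≤ n) (m : ℕ) (hm : m + 1 ≤ 5 * n ^ 2) : a n m ≤ a n (m + 1) := by
  rcases Nat.lt_or_ge n 150 with h | h
  · exact finite_check (fun w Lm L K hw hL c hc h hK k hk => test_sound w Lm L K hw hL c hc h hK k hk)
      n hn (by omega) m hm
  · exact big_n n h m hm

end C048
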