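import Mathlib

/-!
# MP_c048c3_co: unimodality of `P_n = [6n]! [n]! / ([3n]! [2n]!^2)`, common definitions

* polynomial side: `gb`, `BB`, `PN n` (in `ℕ[X]`), coefficients `a n k`;
* analytic side: the linear functional `D n F`, `E n τ θ` (`|P_n(e^{-τ+iθ})| = P_n(e^{-τ}) e^{-E}`),
  `V n τ` (variance of the tilted law), `mu n τ` (its mean), `S2 n`,
  the partial sums `S1`, `Ab`, `T1`, and `Qf n θ = ∑ a_k cos ((k - 5n²) θ)`.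
-/

namespace C048

open Finset

section polynomial_side

open Polynomial

/-- Gaussian binomial coefficients with coefficients in `ℕ`. -/
noncomputable def gb : ℕ → ℕ → ℕ[X]
  | _, 0 => 1
  | 0, _ + 1 => 0
  | n + 1, k + 1 => gb n k + X ^ (k + 1) * gb n (k + 1)

/-- `BB k j = [2(k+j)]! [k]! / ([k+j]! [2k]! [j]!)`. -/
noncomputable def BB : ℕ → ℕ → ℕ[X]
  | _, 0 => 1
  | 0, j + 1 => gb (2 * (j + 1)) (j + 1)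
  | k + 1, j + 1 =>
      (1 + X ^ (2 * k + j + 2) + X ^ (3 * k + j + 3) + X ^ (3 * k + 2 * j + 4)) * BB (k + 1) j
        + X ^ (j + 1) * BB k (j + 1)
termination_by k j => k + j

/-- `PN n = P_n = [6n]! [n]! / ([3n]! [2n]!^2)` as a polynomial with natural coefficients. -/
noncomputable def PN (n : ℕ) : ℕ[X] := BB n (2 * n)

/-- The coefficients of `P_n`. -/
noncomputable def a (n k : ℕ) : ℕ := (PN n).coeff k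

/-- `[m]! = (1-q)(1-q^2)⋯(1-q^m)`. -/
noncomputable def qfac (m : ℕ) : ℤ[X] := ∏ i ∈ range m, (1 - X ^ (i + 1))

end polynomial_side

noncomputable section

/-- The linear functional attached to the product
`P_n = ∏_{3n<i≤6n}(1-q^i) / (∏_{i≤n}(1-q^i) ∏_{n<i≤2n}(1-q^i)^2)`. -/
def D (n : ℕ) (F : ℕ → ℝ) : ℝ :=
  ∑ i ∈ Icc 1 n, F i + 2 * ∑ i ∈ Ioc n (2 * n), F i - ∑ i ∈ Ioc (3 * n) (6 * n), F i

/-- `fE τ θ i = log |1 - e^{i(-τ+θI)}| - log (1 - e^{-iτ})`. -/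
def fE (τ θ : ℝ) (i : ℕ) : ℝ :=
  Real.log (1 + Real.sin (i * θ / 2) ^ 2 / Real.sinh (i * τ / 2) ^ 2) / 2

/-- `|P_n(e^{-τ+iθ})| = P_n(e^{-τ}) exp (-E n τ θ)`. -/
def E (n : ℕ) (τ θ : ℝ) : ℝ := D n (fE τ θ)

/-- `ka τ i = i² / (4 sinh² (iτ/2))`. -/
def ka (τ : ℝ) (i : ℕ) : ℝ := (i : ℝ) ^ 2 / (4 * Real.sinh (i * τ / 2) ^ 2)

/-- variance of the tilted law `a_k e^{-kτ}` -/
def V (n : ℕ) (τ : ℝ) : ℝ := D n (ka τ)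

/-- mean of the tilted law `a_k e^{-kτ}` -/
def mu (n : ℕ) (τ : ℝ) : ℝ := D n (fun i => (i : ℝ) / (Real.exp (i * τ) - 1))

/-- `S2 n = - D n (i ↦ i²)`; `S2 n / 12` is the variance of the coefficient law. -/
def S2 (n : ℕ) : ℝ := 58 * (n : ℝ) ^ 3 + 10 * (n : ℝ) ^ 2

/-- `S4 n = - D n (i ↦ i⁴)`. -/
def S4 (n : ℕ) : ℝ := 1494 * (n : ℝ) ^ 5 + 592 * (n : ℝ) ^ 4 + 58 * (n : ℝ) ^ 3

/-- `P_n(r)`, real. -/
def Pr (n : ℕ) (r : ℝ) : ℝ := ∑ k ∈ range (10 * n ^ 2 + 1), (a n k : ℝ) * r ^ k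

/-- `P_n(z)`, complex. -/
def Pz (n : ℕ) (z : ℂ) : ℂ := ∑ k ∈ range (10 * n ^ 2 + 1), (a n k : ℂ) * z ^ k

/-- `P_n(e^{iθ}) e^{-5n²iθ}`, which is real by reciprocity. -/
def Qf (n : ℕ) (θ : ℝ) : ℝ :=
  ∑ k ∈ range (10 * n ^ 2 + 1), (a n k : ℝ) * Real.cos (((k : ℝ) - 5 * (n : ℝ) ^ 2) * θ)

/-- `∑ m_i e^{-iτ}(1 - cos iθ)`, `m_i = 1` for `i ≤ n`, `2` for `n < i ≤ 2n`. -/
def S1 (n : ℕ) (τ θ : ℝ) : ℝ :=
  ∑ i ∈ Icc 1 n, Real.exp (-(i * τ)) * (1 - Real.cos (i * θ))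
    + 2 * ∑ i ∈ Ioc n (2 * n), Real.exp (-(i * τ)) * (1 - Real.cos (i * θ))

/-- `log coth (y/2)` -/
def Lf (y : ℝ) : ℝ := Real.log (1 + 1 / Real.sinh (y / 2) ^ 2) / 2

def Ab (n : ℕ) (τ : ℝ) : ℝ := ∑ i ∈ Ioc (3 * n) (6 * n), Lf (i * τ)

/-- `T1 τ θ = ∑_{i ≥ 1} e^{-iτ}(1 - cos iθ)` in closed form. -/
def T1 (τ θ : ℝ) : ℝ :=
  Real.sin (θ / 2) ^ 2 /
    (2 * Real.tanh (τ / 2) * (Real.sinh (τ / 2) ^ 2 + Real.sin (θ / 2) ^ 2))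

end

end C048
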