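import Mathlib

/-! Kernel-friendly definitions for the finite check `2 ≤ n ≤ 149` (module FIN). -/

namespace C048

/-- numerator of the step `P_n(W) → P_{n+1}(W)`, `W = 2^w` -/
def fA (w n : ℕ) : ℕ :=
  ((((1 <<< (w*(3*n+1))) + 1) * ((1 <<< (w*(3*n+2))) + 1))
    * (((1 <<< (w*(3*n+3))) + 1) * ((1 <<< (w*(2*n+1))) + ((1 <<< (w*(4*n+2))) + 1))))
   * (((1 <<< (w*(6*n+1))) - 1) * ((1 <<< (w*(6*n+5))) - 1))

/-- denominator of the step `P_n(W) → P_{n+1}(W)` -/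
def fB (w n : ℕ) : ℕ :=
  (((1 <<< (w*(2*n+1))) - 1) * ((1 <<< (w*(2*n+2))) - 1)) * ((1 <<< (w*(n+1))) + 1)

/-- unimodality test; `H` is a mask (top bits of the blocks), `s = w * (5 n^2 + 1)` -/
def okN (w H s N : ℕ) : Bool :=
  (fun M HL => Nat.beq ((M + HL - ((M <<< w) % (1 <<< s))) &&& HL) HL) (N % (1 <<< s)) (H % (1 <<< s))

/-- `f` steps starting from `N = P_n(W)`, testing each new value -/
def run (w H : ℕ) (f n N : ℕ) : Bool :=
  Nat.rec (motive := fun _ => ℕ → ℕ → Bool) (fun _ _ => true) (fun _ ih n N =>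
    (fun N' => (okN w H (w * (5*(n+1)*(n+1)+1)) N') && ih (n+1) N') (N * fA w n / fB w n)) f n N

/-- mask with `L+1` blocks of width `w` -/
def Hm (w L : ℕ) : ℕ := ((1 <<< (w*(L+1))) - 1) / ((1 <<< w) - 1) * (1 <<< (w-1))

end C048
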