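import Mathlib

/-! The final numerical inequality `hfin`, shared by GLM and CHK (MP_c048c3_co). -/

namespace C048

/-- the final numerical inequality in `GLmain` -/
def hfin (n : ℕ) (V τ e4 e5 e6 : ℝ) : Prop :=
  1.2338 + V / (n : ℝ) ^ 2 * (0.0914 * Real.exp (-(V / (36 * (n : ℝ) ^ 2)))
          + 0.1828 * Real.exp (-(V / (24 * (n : ℝ) ^ 2))) + 0.9253 * e4 + 6.7664 * e5)
          + V * 4.935 * e6
        < τ * Real.sqrt V * (0.9173 - 0.209
          - Real.sqrt V / n * (0.1746 * Real.exp (-(V / (36 * (n : ℝ) ^ 2)))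
          + 0.3491 * Real.exp (-(V / (24 * (n : ℝ) ^ 2))) + 0.7854 * e4 + 2.4293 * e5)
          - Real.sqrt V * 3.1416 * e6)

end C048
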