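import Pool.Agent.helper18.KU.Spec

set_option autoImplicit false

namespace Pool.Agent.KU

open Finset

noncomputable section

theorem ORD_card (p : ZMod 3 → Prop) [DecidablePred p] (c : ZMod 3) :
    (univ.filter fun k => p (k - c)).card = (univ.filter p).card := by
  apply Finset.card_bij (fun k _ => k - c)
  · intro a ha
    rw [mem_filter] at ha ⊢
    exact ⟨mem_univ _, ha.2⟩
  · intro a _ b _ hab
    exact sub_left_inj.mp hab
  · intro b hb
    rw [mem_filter] at hb
    refine ⟨b + c, ?_, add_sub_cancel_right b c⟩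
    rw [mem_filter]
    refine ⟨mem_univ _, ?_⟩
    rw [add_sub_cancel_right]
    exact hb.2

theorem ORD : ORD_stmt := by
  intro V _ S X w hSt
  obtain ⟨h, φ, H⟩ := hSt
  have hinj : Set.InjOn (fun v => Int.fract (φ v)) S := by
    intro u hu v hv huv
    by_contra hne
    refine H.dist u hu v hv hne (⌊φ u⌋ - ⌊φ v⌋) ?_
    have h1 := Int.floor_add_fract (φ u)
    have h2 := Int.floor_add_fract (φ v)
    simp only at huv
    push_cast
    linarith
  have hcard : (S.image fun v => Int.fract (φ v)).card = S.card :=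
    Finset.card_image_of_injOn hinj
  have hex : ∀ i : Fin S.card, ∃ v, v ∈ S ∧
      Int.fract (φ v) = (S.image fun v => Int.fract (φ v)).orderEmbOfFin hcard i := by
    intro i
    have h1 := Finset.orderEmbOfFin_mem (S.image fun v => Int.fract (φ v)) hcard i
    rw [Finset.mem_image] at h1
    exact h1
  choose e heS hef using hex
  have hlt : ∀ i j : Fin S.card, i < j → Int.fract (φ (e i)) < Int.fract (φ (e j)) := by
    intro i j hij
    rw [hef i, hef j]
    exact ((S.image fun v => Int.fract (φ v)).orderEmbOfFin hcard).strictMono hij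
  have hle : ∀ i j : Fin S.card, i ≤ j → Int.fract (φ (e i)) ≤ Int.fract (φ (e j)) := by
    intro i j hij
    rcases eq_or_lt_of_le hij with h1 | h1
    · rw [h1]
    · exact (hlt i j h1).le
  have hc : ∀ r : ℕ, r ≤ S.card → ∃ c : ℝ, ∀ i : Fin S.card,
      ((i : ℕ) < r → Int.fract (φ (e i)) ≤ c ∧ c < 1 + Int.fract (φ (e i))) ∧
      (¬ ((i : ℕ) < r) → c < Int.fract (φ (e i)) ∧ Int.fract (φ (e i)) ≤ c + 1) := by
    intro r hr
    rcases Nat.eq_zero_or_pos r with h0 | h0
    · rcases Nat.eq_zero_or_pos S.card with h1 | h1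
      · refine ⟨0, fun i => ?_⟩
        exact absurd i.2 (by omega)
      · refine ⟨Int.fract (φ (e ⟨S.card - 1, by omega⟩)) - 1, fun i => ⟨fun h2 => by omega, fun _ => ?_⟩⟩
        have h3 := hle i ⟨S.card - 1, by omega⟩ (by
          rw [Fin.le_def]
          have := i.2
          simp only
          omega)
        have h4 := Int.fract_lt_one (φ (e ⟨S.card - 1, by omega⟩))
        have h5 := Int.fract_nonneg (φ (e i))
        constructor <;> linarith
    · refine ⟨Int.fract (φ (e ⟨r - 1, by omega⟩)), fun i => ⟨fun h2 => ?_, fun h2 => ?_⟩⟩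
      · have h3 := hle i ⟨r - 1, by omega⟩ (by
          rw [Fin.le_def]
          simp only
          omega)
        have h4 := Int.fract_lt_one (φ (e ⟨r - 1, by omega⟩))
        have h5 := Int.fract_nonneg (φ (e i))
        constructor <;> linarith
      · have h3 := hlt ⟨r - 1, by omega⟩ i (by
          rw [Fin.lt_def]
          simp only
          omega)
        have h4 := Int.fract_nonneg (φ (e ⟨r - 1, by omega⟩))
        have h5 := Int.fract_lt_one (φ (e i))
        constructor <;> linarith
  refine ⟨e, fun v k => h v (k - ((⌊φ v⌋ : ℤ) : ZMod 3)), ?_, ?_, ?_, ?_, ?_, ?_⟩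
  · intro i j hij
    have h1 : (S.image fun v => Int.fract (φ v)).orderEmbOfFin hcard i =
        (S.image fun v => Int.fract (φ v)).orderEmbOfFin hcard j := by
      rw [← hef i, ← hef j, hij]
    exact ((S.image fun v => Int.fract (φ v)).orderEmbOfFin hcard).injective h1
  · intro v
    constructor
    · intro hv
      have h1 : Int.fract (φ v) ∈ Set.range ((S.image fun v => Int.fract (φ v)).orderEmbOfFin hcard) := by
        rw [Finset.range_orderEmbOfFin]
        exact Finset.mem_coe.mpr (Finset.mem_image_of_mem _ hv)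
      obtain ⟨i, hi⟩ := h1
      refine ⟨i, hinj (heS i) hv ?_⟩
      simp only
      rw [hef i, hi]
    · rintro ⟨i, rfl⟩
      exact heS i
  · intro v hv k u hu
    exact H.mem v hv _ u hu
  · intro v hv
    have h1 := ORD_card (fun k => h v k = none) ((⌊φ v⌋ : ℤ) : ZMod 3)
    rw [← H.cX v hv]
    exact h1
  · intro u hu v hv huv
    have h1 := ORD_card (fun k => h u k = some v) ((⌊φ u⌋ : ℤ) : ZMod 3)
    have h2 := ORD_card (fun k => h v k = some u) ((⌊φ v⌋ : ℤ) : ZMod 3)
    rw [← H.cw u hu v hv huv]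
    exact congrArg₂ (· + ·) h1 h2
  · intro q r hr
    obtain ⟨n, rfl⟩ := ZMod.intCast_surjective q
    obtain ⟨c, hc1⟩ := hc r hr
    obtain ⟨ρ, hρ⟩ := H.ac ((n : ℝ) + 1 + c)
    refine ⟨ρ, fun i u hu => hρ (e i) (heS i) u ?_⟩
    rw [← hu]
    unfold ptr
    have h1 := Int.floor_add_fract (φ (e i))
    by_cases hi : (i : ℕ) < r
    · rw [if_pos hi]
      obtain ⟨h2, h3⟩ := (hc1 i).1 hi
      have h4 : ⌊(n : ℝ) + 1 + c - φ (e i)⌋ = n + 1 - ⌊φ (e i)⌋ := by
        rw [Int.floor_eq_iff]
        push_cast
        constructor <;> linarith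
      rw [h4]
      push_cast
      rfl
    · rw [if_neg hi]
      obtain ⟨h2, h3⟩ := (hc1 i).2 hi
      have h4 : ⌊(n : ℝ) + 1 + c - φ (e i)⌋ = n - ⌊φ (e i)⌋ := by
        rw [Int.floor_eq_iff]
        push_cast
        constructor <;> linarith
      rw [h4]
      push_cast
      rfl

end

end Pool.Agent.KU
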